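import Pool.Agent.Lib_helper98.H4F.GG
import Pool.Agent.Lib_helper98.HNF.QE
import Pool.Agent.Lib_helper68.HL4.Defs

/-! ## HL4, block SA: the Fourier transform of the bump function has moments; the main term -/

namespace Pool.Agent.HL4

open Complex MeasureTheory Filter Topology
open Pool.Agent.HQ (bp bp_contDiff bp_supp)
open scoped FourierTransform

/-- Fourier inversion, with two moments -/
theorem sw_fourier : ∃ g : ℝ → ℂ, Integrable g ∧ Integrable (fun ξ : ℝ => ‖g ξ‖ * (1 + |ξ|) ^ 2) ∧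
    ∀ u : ℝ, ((bp u : ℝ) : ℂ) = ∫ ξ : ℝ, g ξ * cexp ((u * ξ : ℝ) * I) := by
  have hpi : (2 * Real.pi : ℝ) ≠ 0 := by positivity
  have hpi0 : (0 : ℝ) < 2 * Real.pi := by positivity
  have hcs : HasCompactSupport (fun u : ℝ => ((bp u : ℝ) : ℂ)) :=
    bp_supp.comp_left (g := fun x : ℝ => (x : ℂ)) (by simp)
  have hsm : ContDiff ℝ (⊤ : ℕ∞) (fun u : ℝ => ((bp u : ℝ) : ℂ)) :=
    Complex.ofRealCLM.contDiff.comp bp_contDiff
  set S : SchwartzMap ℝ ℂ := hcs.toSchwartzMap hsm with hS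
  have hSf : (S : ℝ → ℂ) = fun u : ℝ => ((bp u : ℝ) : ℂ) := rfl
  have hFint : Integrable (𝓕 (S : ℝ → ℂ)) := by
    have := (𝓕 S).integrable (μ := volume)
    rwa [SchwartzMap.fourier_coe] at this
  have hmom : ∀ k : ℕ, Integrable (fun ξ : ℝ => ‖ξ‖ ^ k * ‖𝓕 (S : ℝ → ℂ) ξ‖) := by
    intro k
    have := (𝓕 S).integrable_pow_mul volume k
    rwa [SchwartzMap.fourier_coe] at this
  have hinv : 𝓕⁻ (𝓕 (S : ℝ → ℂ)) = (S : ℝ → ℂ) :=
    S.continuous.fourierInv_fourier_eq S.integrable hFint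
  refine ⟨fun ξ => ((1 / (2 * Real.pi) : ℝ) : ℂ) * 𝓕 (S : ℝ → ℂ) (ξ / (2 * Real.pi)), ?_, ?_,
    fun u => ?_⟩
  · exact (hFint.comp_div hpi).const_mul _
  · have h0 := hmom 0
    have h1 := hmom 1
    have h2 := hmom 2
    have h3 : Integrable (fun η : ℝ => 1 / (2 * Real.pi) * (‖η‖ ^ 0 * ‖𝓕 (S : ℝ → ℂ) η‖ +
        (4 * Real.pi) * (‖η‖ ^ 1 * ‖𝓕 (S : ℝ → ℂ) η‖) +
        (2 * Real.pi) ^ 2 * (‖η‖ ^ 2 * ‖𝓕 (S : ℝ → ℂ) η‖))) :=
      ((h0.add (h1.const_mul _)).add (h2.const_mul _)).const_mul _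
    refine (h3.comp_div hpi).congr (Filter.Eventually.of_forall fun ξ => ?_)
    simp only [norm_mul, Complex.norm_real, Real.norm_eq_abs, abs_div, abs_of_pos hpi0, abs_one]
    have h4 : |ξ| = 2 * Real.pi * (|ξ| / (2 * Real.pi)) := by field_simp
    generalize ‖𝓕 (S : ℝ → ℂ) (ξ / (2 * Real.pi))‖ = N
    generalize |ξ| / (2 * Real.pi) = z at h4 ⊢
    rw [h4]
    ring
  · have h1 := congrFun hinv u
    rw [Real.fourierInv_eq'] at h1
    rw [hSf] at h1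
    rw [← hSf] at h1
    have h2 := Measure.integral_comp_div (fun v : ℝ => 𝓕 (S : ℝ → ℂ) v *
      cexp ((u * (2 * Real.pi * v) : ℝ) * I)) (2 * Real.pi)
    have h3 : ((bp u : ℝ) : ℂ) = S u := rfl
    rw [h3, ← h1]
    have h4 : ∀ ξ : ℝ, ((1 / (2 * Real.pi) : ℝ) : ℂ) * 𝓕 (S : ℝ → ℂ) (ξ / (2 * Real.pi)) *
        cexp ((u * ξ : ℝ) * I) = ((1 / (2 * Real.pi) : ℝ) : ℂ) * (𝓕 (S : ℝ → ℂ) (ξ / (2 * Real.pi)) *
        cexp ((u * (2 * Real.pi * (ξ / (2 * Real.pi))) : ℝ) * I)) := by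
      intro ξ
      rw [mul_div_cancel₀ ξ hpi, mul_assoc]
    simp only [h4]
    rw [integral_const_mul, h2, abs_of_pos (by positivity), Complex.real_smul, ← mul_assoc,
      ← Complex.ofReal_mul, one_div, inv_mul_cancel₀ hpi, Complex.ofReal_one, one_mul]
    refine integral_congr_ae (Filter.Eventually.of_forall fun v => ?_)
    simp only [smul_eq_mul]
    rw [mul_comm]
    congr 2
    simp
    ring

/-- the main term `t_+^{κ-1} e^{-δt}` -/
noncomputable def sM (κ δ : ℝ) (t : ℝ) : ℝ := (Set.Ioi (0 : ℝ)).indicator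
  (fun t => t ^ (κ - 1) * Real.exp (-(δ * t))) t

theorem sM_nonneg (κ δ t : ℝ) : 0 ≤ sM κ δ t := by
  unfold sM
  refine Set.indicator_nonneg (fun t ht => ?_) t
  have : (0 : ℝ) < t := ht
  positivity

theorem sM_int {κ δ : ℝ} (hκ : 0 < κ) (hδ : 0 < δ) : Integrable (sM κ δ) := by
  unfold sM
  rw [integrable_indicator_iff measurableSet_Ioi]
  exact Pool.Agent.H4.gg_int hκ hδ

theorem sM_gamma {κ δ : ℝ} (hκ : 0 < κ) (hδ : 0 < δ) (x : ℝ) :
    ∫ t : ℝ, ((sM κ δ t : ℝ) : ℂ) * cexp ((x * t : ℝ) * I) =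
      Gamma κ * ((δ : ℂ) - x * I) ^ (-(κ : ℂ)) := by
  have hre : ((δ : ℂ) - x * I).re = δ := by simp
  have h := Pool.Agent.H4.gg_integral (a := (κ : ℂ)) (r := (δ : ℂ) - x * I)
    (by simpa using hκ) (by rw [hre]; exact hδ)
  have h1 : (fun t : ℝ => ((sM κ δ t : ℝ) : ℂ) * cexp ((x * t : ℝ) * I)) =
      (Set.Ioi (0 : ℝ)).indicator (fun t : ℝ => (t : ℂ) ^ ((κ : ℂ) - 1) *
        cexp (-(((δ : ℂ) - x * I) * t))) := by
    funext t
    unfold sM
    by_cases ht : t ∈ Set.Ioi (0 : ℝ)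
    · rw [Set.indicator_of_mem ht, Set.indicator_of_mem ht]
      have ht0 : (0 : ℝ) < t := ht
      rw [Complex.ofReal_mul, Complex.ofReal_cpow ht0.le, Complex.ofReal_exp, mul_assoc,
        ← Complex.exp_add]
      congr 1
      · push_cast
        rfl
      · congr 1
        push_cast
        ring
    · rw [Set.indicator_of_notMem ht, Set.indicator_of_notMem ht]
      simp
  rw [h1, integral_indicator measurableSet_Ioi, h, mul_comm]
  congr 1
  rw [one_div, Complex.inv_cpow, Complex.cpow_neg]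
  intro harg
  have h2 := Complex.arg_eq_pi_iff.1 harg
  rw [hre] at h2
  linarith [h2.1]

end Pool.Agent.HL4
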