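import Pool.Agent.Lib_helper98.HNF.QF
import Pool.Agent.Lib_helper92.HL4.SA

/-! ## HL4, block SB: the first moment over a short window without sign change -/

namespace Pool.Agent.HL4

open Complex MeasureTheory Filter Topology
open Pool.Agent.HQ (bp bp_contDiff bp_supp bp_nonneg bp_le_one bp_zero PkgW win_pow)

theorem sb_cont (T H : ℝ) : Continuous (fun t : ℝ => bp ((t - T) / H)) :=
  (bp_contDiff.continuous).comp (by fun_prop)

theorem sb_zero {T H : ℝ} (hH : 0 < H) {t : ℝ} (ht : ¬ (T < t ∧ t < T + H)) :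
    bp ((t - T) / H) = 0 := by
  apply bp_zero
  intro hm
  apply ht
  obtain ⟨h1, h2⟩ := hm
  rw [lt_div_iff₀ hH] at h1
  rw [div_lt_iff₀ hH] at h2
  constructor
  · linarith
  · linarith

/-- the Fubini step -/
theorem sb_fub {F : ℝ → ℂ} (hF : Integrable F) {g : ℝ → ℂ} (hg : Integrable g)
    (hbg : ∀ u : ℝ, ((bp u : ℝ) : ℂ) = ∫ ξ : ℝ, g ξ * cexp ((u * ξ : ℝ) * I)) {T H : ℝ}
    (hH : 0 < H) :
    ∫ t : ℝ, F t * ((bp ((t - T) / H) : ℝ) : ℂ) =
      ∫ ξ : ℝ, g ξ * cexp ((-(ξ * T / H) : ℝ) * I) *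
        ∫ t : ℝ, F t * cexp (((ξ / H) * t : ℝ) * I) := by
  have hstep : ∀ t : ℝ, F t * ((bp ((t - T) / H) : ℝ) : ℂ) = ∫ ξ : ℝ, F t * (g ξ *
      cexp ((((t - T) / H) * ξ : ℝ) * I)) := by
    intro t
    rw [integral_const_mul, ← hbg]
  calc ∫ t : ℝ, F t * ((bp ((t - T) / H) : ℝ) : ℂ) = ∫ t : ℝ, ∫ ξ : ℝ, F t * (g ξ *
      cexp ((((t - T) / H) * ξ : ℝ) * I)) := integral_congr_ae
        (Filter.Eventually.of_forall hstep)
    _ = ∫ ξ : ℝ, ∫ t : ℝ, F t * (g ξ * cexp ((((t - T) / H) * ξ : ℝ) * I)) := by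
        apply integral_integral_swap
        have hp : Integrable (Function.uncurry fun (t ξ : ℝ) => F t * g ξ)
            ((volume : Measure ℝ).prod volume) := hF.mul_prod hg
        have hq := hp.mul_bdd (c := 1) (g := fun p : ℝ × ℝ =>
          cexp ((((p.1 - T) / H) * p.2 : ℝ) * I)) (by
            apply Continuous.aestronglyMeasurable
            fun_prop) (by
            filter_upwards with p
            rw [Complex.norm_exp_ofReal_mul_I])
        refine hq.congr ?_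
        filter_upwards with p
        simp only [Function.uncurry]
        ring
    _ = _ := by
        apply integral_congr_ae
        filter_upwards with ξ
        rw [← integral_const_mul]
        apply integral_congr_ae
        filter_upwards with t
        have he : cexp ((((t - T) / H) * ξ : ℝ) * I) = cexp ((-(ξ * T / H) : ℝ) * I) *
            cexp (((ξ / H) * t : ℝ) * I) := by
          rw [← Complex.exp_add]
          congr 1
          rw [← add_mul, ← Complex.ofReal_add]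
          congr 2
          field_simp
          ring
        rw [he]
        ring

/-- the exponents -/
theorem sb_exp {κ T H : ℝ} (hT : 1 ≤ T) (h1 : T ^ (99 / 100 : ℝ) ≤ H) (h2 : H ≤ T) (ξ : ℝ) :
    T ^ (1 - κ) * ((2 / T) ^ (-κ + 3 / 100) * (1 + |ξ / H| / (2 / T)) ^ 2) ≤
      2 ^ (-κ + 3 / 100) * 4 * (1 + |ξ|) ^ 2 * H := by
  have hT0 : 0 < T := by linarith
  have hH0 : 0 < H := lt_of_lt_of_le (Real.rpow_pos_of_pos hT0 _) h1
  have e1 : (2 / T) ^ (-κ + 3 / 100) = 2 ^ (-κ + 3 / 100) * T ^ (κ - 3 / 100) := by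
    rw [Real.div_rpow (by norm_num) hT0.le, div_eq_mul_inv, ← Real.rpow_neg hT0.le]
    congr 2
    ring
  have e2 : T ^ (1 - κ) * T ^ (κ - 3 / 100) = T ^ (97 / 100 : ℝ) := by
    rw [← Real.rpow_add hT0]
    congr 1
    ring
  have e3 : 1 + |ξ / H| / (2 / T) ≤ 2 * (T / H) * (1 + |ξ|) := by
    have h3 : 1 ≤ T / H := (one_le_div hH0).2 h2
    rw [abs_div, abs_of_pos hH0]
    have h4 : |ξ| / H / (2 / T) = |ξ| * (T / H) / 2 := by field_simp
    rw [h4]
    have h5 : 0 ≤ |ξ| := abs_nonneg _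
    nlinarith [mul_nonneg h5 (by linarith : (0 : ℝ) ≤ T / H)]
  have e4 : (1 + |ξ / H| / (2 / T)) ^ 2 ≤ 4 * (T / H) ^ 2 * (1 + |ξ|) ^ 2 := by
    have h6 : 0 ≤ 1 + |ξ / H| / (2 / T) := by positivity
    calc (1 + |ξ / H| / (2 / T)) ^ 2 ≤ (2 * (T / H) * (1 + |ξ|)) ^ 2 :=
          pow_le_pow_left₀ h6 e3 2
      _ = _ := by ring
  have e5 : T ^ (97 / 100 : ℝ) * (T / H) ^ 2 ≤ H := by
    have h7 : T / H ≤ T ^ (1 / 100 : ℝ) := by
      rw [div_le_iff₀ hH0]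
      calc T = T ^ (1 / 100 : ℝ) * T ^ (99 / 100 : ℝ) := by
            rw [← Real.rpow_add hT0]; norm_num
        _ ≤ _ := by gcongr
    calc T ^ (97 / 100 : ℝ) * (T / H) ^ 2 ≤ T ^ (97 / 100 : ℝ) * (T ^ (1 / 100 : ℝ)) ^ 2 := by
          gcongr
      _ = T ^ (99 / 100 : ℝ) := by
          rw [← Real.rpow_natCast, ← Real.rpow_mul hT0.le, ← Real.rpow_add hT0]
          norm_num
      _ ≤ H := h1
  rw [e1]
  calc T ^ (1 - κ) * (2 ^ (-κ + 3 / 100) * T ^ (κ - 3 / 100) * (1 + |ξ / H| / (2 / T)) ^ 2)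
      = 2 ^ (-κ + 3 / 100) * (T ^ (1 - κ) * T ^ (κ - 3 / 100)) *
        (1 + |ξ / H| / (2 / T)) ^ 2 := by ring
    _ ≤ 2 ^ (-κ + 3 / 100) * T ^ (97 / 100 : ℝ) * (4 * (T / H) ^ 2 * (1 + |ξ|) ^ 2) := by
        rw [e2]
        gcongr
    _ = 2 ^ (-κ + 3 / 100) * 4 * (1 + |ξ|) ^ 2 * (T ^ (97 / 100 : ℝ) * (T / H) ^ 2) := by ring
    _ ≤ _ := by gcongr

/-- powers of `t` on the window -/
theorem sb_pow {p T t : ℝ} (hT : 0 < T) (h1 : T < t) (h2 : t < 2 * T) :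
    t ^ p ≤ max 1 (2 ^ p) * T ^ p := by
  have hu : t = T * (t / T) := by field_simp
  have hu1 : 1 < t / T := by rw [lt_div_iff₀ hT]; linarith
  have hu2 : t / T < 2 := by rw [div_lt_iff₀ hT]; linarith
  have key : (t / T) ^ p ≤ max 1 (2 ^ p) := by
    rcases le_total 0 p with h | h
    · exact le_trans (Real.rpow_le_rpow (by linarith) hu2.le h) (le_max_right _ _)
    · exact le_trans (Real.rpow_le_one_of_one_le_of_nonpos hu1.le h) (le_max_left _ _)
  have hsplit : t ^ p = T ^ p * (t / T) ^ p := by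
    conv_lhs => rw [hu]
    rw [Real.mul_rpow hT.le (by positivity)]
  rw [hsplit, mul_comm]
  exact mul_le_mul_of_nonneg_right key (Real.rpow_nonneg hT.le _)

/-- the main term over the window -/
theorem sb_main (κ : ℝ) {T H δ : ℝ} (hT : 0 < T) (hH : 0 < H) (hHT : H ≤ T) (hδ : 0 < δ) :
    ‖∫ t : ℝ, ((sM κ δ t : ℝ) : ℂ) * ((bp ((t - T) / H) : ℝ) : ℂ)‖ ≤
      max 1 (2 ^ (κ - 1)) * T ^ (κ - 1) * H := by
  set D : ℝ := max 1 (2 ^ (κ - 1)) * T ^ (κ - 1) with hD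
  have hD0 : 0 ≤ D := by positivity
  have h1 : ∀ t : ℝ, ‖((sM κ δ t : ℝ) : ℂ) * ((bp ((t - T) / H) : ℝ) : ℂ)‖ ≤
      (Set.Ioo T (T + H)).indicator (fun _ => D) t := by
    intro t
    by_cases ht : T < t ∧ t < T + H
    · rw [Set.indicator_of_mem (show t ∈ Set.Ioo T (T + H) from ht), norm_mul, Complex.norm_real,
        Complex.norm_real, Real.norm_of_nonneg (sM_nonneg _ _ _), Real.norm_of_nonneg (bp_nonneg _)]
      have ht0 : 0 < t := hT.trans ht.1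
      have h2 : sM κ δ t = t ^ (κ - 1) * Real.exp (-(δ * t)) := by
        unfold sM
        rw [Set.indicator_of_mem (show t ∈ Set.Ioi (0 : ℝ) from ht0)]
      have h3 : Real.exp (-(δ * t)) ≤ 1 := by
        rw [Real.exp_le_one_iff]
        have : 0 ≤ δ * t := by positivity
        linarith
      have h4 : sM κ δ t ≤ D := by
        rw [h2]
        have h5 := sb_pow (p := κ - 1) hT ht.1 (by linarith [ht.2])
        calc t ^ (κ - 1) * Real.exp (-(δ * t)) ≤ t ^ (κ - 1) * 1 := by gcongr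
          _ ≤ D := by rw [mul_one]; exact h5
      calc sM κ δ t * bp ((t - T) / H) ≤ D * 1 :=
            mul_le_mul h4 (bp_le_one _) (bp_nonneg _) hD0
        _ = D := mul_one _
    · rw [sb_zero hH ht]
      simp only [Complex.ofReal_zero, mul_zero, norm_zero]
      exact Set.indicator_nonneg (fun _ _ => hD0) _
  have hi : Integrable ((Set.Ioo T (T + H)).indicator (fun _ : ℝ => D)) := by
    rw [integrable_indicator_iff measurableSet_Ioo]
    exact integrableOn_const (by simp) (by simp)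
  refine (norm_integral_le_of_norm_le hi (Filter.Eventually.of_forall h1)).trans (le_of_eq ?_)
  rw [integral_indicator measurableSet_Ioo]
  simp [hH.le, mul_comm]

/-- block SB -/
theorem win_bd_s {a : ℕ → ℂ} {Λ Lf : ℂ → ℂ} {κ β : ℝ} (hβ : 0 < β) (hκ : 0 < κ)
    (h : PkgW a Λ Lf κ β) (hU : Ups Λ κ β) :
    ∃ C T₀ : ℝ, 1 ≤ T₀ ∧ ∀ T H : ℝ, T₀ ≤ T → T ^ (99 / 100 : ℝ) ≤ H → H ≤ T → ∀ σ : ℂ, ‖σ‖ = 1 →
      (∀ t : ℝ, T < t → t < T + H →
        (‖Λ (1 / 2 + t * I)‖ : ℂ) = σ * Λ (1 / 2 + t * I)) →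
      ∫ t : ℝ, ‖Lf (1 / 2 + t * I)‖ * bp ((t - T) / H) ≤ C * H := by
  obtain ⟨c, t₀, hc, ht₀, hlo⟩ := h.lo
  obtain ⟨cU, CU, hup⟩ := hU
  obtain ⟨g, hg, hg2, hbg⟩ := sw_fourier
  have hCU0 : 0 ≤ CU := by
    have h1 := hup 1 one_pos le_rfl 0
    have h2 := (norm_nonneg _).trans h1
    simpa using h2
  have hΓ : Gamma (κ : ℂ) ≠ 0 := by
    rw [Complex.Gamma_ofReal]
    exact_mod_cast (Real.Gamma_pos_of_pos hκ).ne'
  set c' : ℂ := cU / Gamma κ with hc'
  set c1 : ℝ := min 1 ((1 + 1) ^ (κ - 1)) with hc1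
  have hc1pos : 0 < c1 := lt_min one_pos (Real.rpow_pos_of_pos (by norm_num) _)
  set N : ℝ := ∫ ξ : ℝ, ‖g ξ‖ * (1 + |ξ|) ^ 2 with hN
  have hN0 : 0 ≤ N := integral_nonneg fun _ => by positivity
  set D1 : ℝ := CU * (2 ^ (-κ + 3 / 100) * 4) * N with hD1
  set D2 : ℝ := ‖c'‖ * max 1 (2 ^ (κ - 1)) with hD2
  refine ⟨Real.exp (2 * (1 + 1)) / (c * c1) * (D1 + D2), max 1 (max t₀ (max 2 (2 / β))),
    le_max_left _ _, ?_⟩
  intro T H hT hTH hHT σ hσ hsig
  have hT1 : 1 ≤ T := le_trans (le_max_left _ _) hT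
  have hTt : t₀ ≤ T := le_trans (le_trans (le_max_left _ _) (le_max_right _ _)) hT
  have hT2 : 2 ≤ T := le_trans (le_trans (le_trans (le_max_left _ _) (le_max_right _ _))
    (le_max_right _ _)) hT
  have hTb : 2 / β ≤ T := le_trans (le_trans (le_trans (le_max_right _ _) (le_max_right _ _))
    (le_max_right _ _)) hT
  have hT0 : 0 < T := by linarith
  have hH0 : 0 < H := lt_of_lt_of_le (Real.rpow_pos_of_pos hT0 _) hTH
  set δ : ℝ := 2 / T with hδ
  have hδ0 : 0 < δ := by positivity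
  have hδ1 : δ ≤ 1 := by
    rw [hδ, div_le_one hT0]
    exact hT2
  have hδβ : δ ≤ β := by
    rw [hδ, div_le_iff₀ hT0]
    rw [div_le_iff₀ hβ] at hTb
    linarith
  have hint := h.int δ hδ0 hδβ
  set F : ℝ → ℂ := fun t => Λ (1 / 2 + t * I) * ((Real.exp ((β - δ) * t) : ℝ) : ℂ) with hF
  set W : ℝ → ℝ := fun t => bp ((t - T) / H) with hW
  have hWc : Continuous W := sb_cont T H
  have hW0 : ∀ t, 0 ≤ W t := fun t => bp_nonneg _
  have hW1 : ∀ t, W t ≤ 1 := fun t => bp_le_one _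
  have hWsupp : ∀ t, ¬ (T < t ∧ t < T + H) → W t = 0 := fun t ht => sb_zero hH0 ht
  have hbddW : ∀ {f : ℝ → ℂ}, Integrable f → Integrable (fun t => f t * ((W t : ℝ) : ℂ)) := by
    intro f hf
    apply hf.mul_bdd (c := 1)
    · exact (Complex.continuous_ofReal.comp hWc).aestronglyMeasurable
    · filter_upwards with t
      rw [Complex.norm_real, Real.norm_eq_abs, abs_of_nonneg (hW0 t)]
      exact hW1 t
  have hFW : Integrable (fun t => F t * ((W t : ℝ) : ℂ)) := hbddW hint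
  -- pointwise
  set K : ℝ := Real.exp (2 * (1 + 1)) / (c * c1) * T ^ (1 - κ) with hK
  have hK0 : 0 ≤ K := by positivity
  have hpt : ∀ t : ℝ, ‖Lf (1 / 2 + t * I)‖ * W t ≤ K * ‖F t * ((W t : ℝ) : ℂ)‖ := by
    intro t
    by_cases ht : T < t ∧ t < T + H
    · have hl := hlo t (by linarith [ht.1])
      have hp := win_pow (κ := κ) (ε := 1) hT0 ht.1 (by linarith [ht.2])
      rw [norm_mul, Complex.norm_real, Real.norm_eq_abs, abs_of_nonneg (hW0 t), ← mul_assoc]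
      apply mul_le_mul_of_nonneg_right _ (hW0 t)
      have hFn : ‖F t‖ = ‖Λ (1 / 2 + t * I)‖ * Real.exp ((β - δ) * t) := by
        rw [hF]
        simp only [norm_mul, Complex.norm_real, Real.norm_eq_abs, Real.abs_exp]
      rw [hFn, hK]
      have hδt : δ * t ≤ 2 * (1 + 1) := by
        have : δ * t ≤ δ * ((1 + 1) * T) :=
          mul_le_mul_of_nonneg_left (by linarith [ht.2]) hδ0.le
        have h2 : δ * ((1 + 1) * T) = 2 * (1 + 1) := by rw [hδ]; field_simp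
        linarith
      have hexp : Real.exp (-(β * t)) * Real.exp ((β - δ) * t) = Real.exp (-(δ * t)) := by
        rw [← Real.exp_add]; congr 1; ring
      have hexp2 : 1 ≤ Real.exp (2 * (1 + 1)) * Real.exp (-(δ * t)) := by
        rw [← Real.exp_add]
        exact Real.one_le_exp (by linarith)
      have hTT : T ^ (1 - κ) * T ^ (κ - 1) = 1 := by
        rw [← Real.rpow_add hT0]; norm_num
      have hTp : 0 < T ^ (κ - 1) := Real.rpow_pos_of_pos hT0 _
      have hTp' : 0 < T ^ (1 - κ) := Real.rpow_pos_of_pos hT0 _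
      have hL0 : 0 ≤ ‖Lf (1 / 2 + t * I)‖ := norm_nonneg _
      have hlow : c * (c1 * T ^ (κ - 1)) * Real.exp (-(β * t)) * ‖Lf (1 / 2 + t * I)‖ ≤
          ‖Λ (1 / 2 + t * I)‖ := by
        refine le_trans ?_ hl
        gcongr
      calc ‖Lf (1 / 2 + t * I)‖ = 1 * ‖Lf (1 / 2 + t * I)‖ := (one_mul _).symm
        _ ≤ (Real.exp (2 * (1 + 1)) * Real.exp (-(δ * t))) * ‖Lf (1 / 2 + t * I)‖ :=
            mul_le_mul_of_nonneg_right hexp2 hL0
        _ = Real.exp (2 * (1 + 1)) / (c * c1) * T ^ (1 - κ) *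
            ((c * (c1 * T ^ (κ - 1)) * Real.exp (-(β * t)) * ‖Lf (1 / 2 + t * I)‖) *
              Real.exp ((β - δ) * t)) := by
            have e1 : Real.exp (2 * (1 + 1)) / (c * c1) * T ^ (1 - κ) *
              ((c * (c1 * T ^ (κ - 1)) * Real.exp (-(β * t)) * ‖Lf (1 / 2 + t * I)‖) *
              Real.exp ((β - δ) * t)) = (Real.exp (2 * (1 + 1)) / (c * c1) * (c * c1)) *
              (T ^ (1 - κ) * T ^ (κ - 1)) * (Real.exp (-(β * t)) * Real.exp ((β - δ) * t)) *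
              ‖Lf (1 / 2 + t * I)‖ := by ring
            rw [e1, hTT, hexp, div_mul_cancel₀ _ (by positivity), mul_one]
        _ ≤ Real.exp (2 * (1 + 1)) / (c * c1) * T ^ (1 - κ) *
            (‖Λ (1 / 2 + t * I)‖ * Real.exp ((β - δ) * t)) := by
            gcongr
    · rw [hWsupp t ht]
      simp
  have hnorm : ∫ t : ℝ, ‖F t * ((W t : ℝ) : ℂ)‖ = ‖∫ t : ℝ, F t * ((W t : ℝ) : ℂ)‖ := by
    have hptn : ∀ t : ℝ, ((‖F t * ((W t : ℝ) : ℂ)‖ : ℝ) : ℂ) = σ * (F t * ((W t : ℝ) : ℂ)) := by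
      intro t
      by_cases ht : T < t ∧ t < T + H
      · have hs := hsig t ht.1 ht.2
        rw [norm_mul, Complex.norm_real, Real.norm_eq_abs, abs_of_nonneg (hW0 t)]
        have hFn : ‖F t‖ = ‖Λ (1 / 2 + t * I)‖ * Real.exp ((β - δ) * t) := by
          rw [hF]
          simp only [norm_mul, Complex.norm_real, Real.norm_eq_abs, Real.abs_exp]
        rw [hFn, Complex.ofReal_mul, Complex.ofReal_mul, hs, hF]
        ring
      · rw [hWsupp t ht]
        simp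
    have h1 : ((∫ t : ℝ, ‖F t * ((W t : ℝ) : ℂ)‖ : ℝ) : ℂ) = σ * ∫ t : ℝ, F t * ((W t : ℝ) : ℂ) := by
      rw [← integral_complex_ofReal, ← integral_const_mul]
      exact integral_congr_ae (Filter.Eventually.of_forall hptn)
    have h2 : 0 ≤ ∫ t : ℝ, ‖F t * ((W t : ℝ) : ℂ)‖ := integral_nonneg fun _ => norm_nonneg _
    have h3 := congrArg norm h1
    rw [Complex.norm_real, Real.norm_eq_abs, abs_of_nonneg h2, norm_mul, hσ, one_mul] at h3
    exact h3
  -- subtract the main term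
  set M : ℝ → ℂ := fun t => ((sM κ δ t : ℝ) : ℂ) with hM
  have hMi : Integrable M := (sM_int hκ hδ0).ofReal
  set Ft : ℝ → ℂ := fun t => F t - c' * M t with hFt
  have hFti : Integrable Ft := hint.sub (hMi.const_mul _)
  have hFtF : ∀ x : ℝ, ∫ t : ℝ, Ft t * cexp ((x * t : ℝ) * I) =
      (∫ t : ℝ, F t * cexp ((x * t : ℝ) * I)) - cU * ((δ : ℂ) - x * I) ^ (-(κ : ℂ)) := by
    intro x
    have hbe : ∀ {f : ℝ → ℂ}, Integrable f → Integrable (fun t => f t * cexp ((x * t : ℝ) * I)) := by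
      intro f hf
      apply hf.mul_bdd (c := 1)
      · apply Continuous.aestronglyMeasurable
        fun_prop
      · filter_upwards with t
        rw [Complex.norm_exp_ofReal_mul_I]
    have h1 : ∀ t : ℝ, Ft t * cexp ((x * t : ℝ) * I) = F t * cexp ((x * t : ℝ) * I) -
        c' * (M t * cexp ((x * t : ℝ) * I)) := by
      intro t
      simp only [hFt]
      ring
    simp_rw [h1]
    rw [integral_sub (hbe hint) ((hbe hMi).const_mul _), integral_const_mul]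
    simp only [hM]
    rw [sM_gamma hκ hδ0 x, ← mul_assoc, hc', div_mul_cancel₀ _ hΓ]
  have hFtW : T ^ (1 - κ) * ‖∫ t : ℝ, Ft t * ((W t : ℝ) : ℂ)‖ ≤ D1 * H := by
    rw [sb_fub hFti hg hbg hH0]
    have h1 : ‖∫ ξ : ℝ, g ξ * cexp ((-(ξ * T / H) : ℝ) * I) *
        ∫ t : ℝ, Ft t * cexp (((ξ / H) * t : ℝ) * I)‖ ≤
        ∫ ξ : ℝ, ‖g ξ‖ * (1 + |ξ|) ^ 2 *
          (CU * (T ^ (1 - κ))⁻¹ * (2 ^ (-κ + 3 / 100) * 4 * H)) := by
      apply norm_integral_le_of_norm_le (hg2.mul_const _)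
      filter_upwards with ξ
      rw [norm_mul, norm_mul, Complex.norm_exp_ofReal_mul_I, mul_one]
      have h2 := hup δ hδ0 hδ1 (ξ / H)
      rw [← hFtF (ξ / H)] at h2
      have h3 := sb_exp (κ := κ) hT1 hTH hHT ξ
      rw [← hδ] at h3
      have hTp : 0 < T ^ (1 - κ) := Real.rpow_pos_of_pos hT0 _
      have h4 : δ ^ (-κ + 3 / 100) * (1 + |ξ / H| / δ) ^ 2 ≤
          (T ^ (1 - κ))⁻¹ * (2 ^ (-κ + 3 / 100) * 4 * (1 + |ξ|) ^ 2 * H) := by
        rw [← mul_le_mul_iff_right₀ hTp, ← mul_assoc (T ^ (1 - κ)) (T ^ (1 - κ))⁻¹,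
          mul_inv_cancel₀ hTp.ne', one_mul]
        exact h3
      calc ‖g ξ‖ * ‖∫ t : ℝ, Ft t * cexp (((ξ / H) * t : ℝ) * I)‖
          ≤ ‖g ξ‖ * (CU * δ ^ (-κ + 3 / 100) * (1 + |ξ / H| / δ) ^ 2) := by gcongr
        _ = ‖g ξ‖ * (CU * (δ ^ (-κ + 3 / 100) * (1 + |ξ / H| / δ) ^ 2)) := by ring
        _ ≤ ‖g ξ‖ * (CU * ((T ^ (1 - κ))⁻¹ *
            (2 ^ (-κ + 3 / 100) * 4 * (1 + |ξ|) ^ 2 * H))) := by gcongr
        _ = _ := by ring
    rw [integral_mul_const, ← hN] at h1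
    have hTp : 0 < T ^ (1 - κ) := Real.rpow_pos_of_pos hT0 _
    calc T ^ (1 - κ) * _ ≤ T ^ (1 - κ) *
          (N * (CU * (T ^ (1 - κ))⁻¹ * (2 ^ (-κ + 3 / 100) * 4 * H))) := by gcongr
      _ = (T ^ (1 - κ) * (T ^ (1 - κ))⁻¹) * (CU * (2 ^ (-κ + 3 / 100) * 4) * N) * H := by ring
      _ = D1 * H := by rw [mul_inv_cancel₀ hTp.ne', one_mul]
  have hMW : T ^ (1 - κ) * ‖c' * ∫ t : ℝ, M t * ((W t : ℝ) : ℂ)‖ ≤ D2 * H := by
    have h1 := sb_main κ hT0 hH0 hHT hδ0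
    rw [norm_mul]
    have hTp : 0 < T ^ (1 - κ) := Real.rpow_pos_of_pos hT0 _
    have hTT : T ^ (1 - κ) * T ^ (κ - 1) = 1 := by
      rw [← Real.rpow_add hT0]; norm_num
    calc T ^ (1 - κ) * (‖c'‖ * ‖∫ t : ℝ, M t * ((W t : ℝ) : ℂ)‖)
        ≤ T ^ (1 - κ) * (‖c'‖ * (max 1 (2 ^ (κ - 1)) * T ^ (κ - 1) * H)) := by gcongr
      _ = (T ^ (1 - κ) * T ^ (κ - 1)) * (‖c'‖ * max 1 (2 ^ (κ - 1))) * H := by ring
      _ = D2 * H := by rw [hTT, one_mul]
  have hsum : ∫ t : ℝ, F t * ((W t : ℝ) : ℂ) = (∫ t : ℝ, Ft t * ((W t : ℝ) : ℂ)) +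
      c' * ∫ t : ℝ, M t * ((W t : ℝ) : ℂ) := by
    rw [← integral_const_mul, ← integral_add (hbddW hFti) ((hbddW hMi).const_mul _)]
    refine integral_congr_ae (Filter.Eventually.of_forall fun t => ?_)
    simp only [hFt]
    ring
  have hfin : T ^ (1 - κ) * ‖∫ t : ℝ, F t * ((W t : ℝ) : ℂ)‖ ≤ (D1 + D2) * H := by
    rw [hsum]
    have hTp : 0 < T ^ (1 - κ) := Real.rpow_pos_of_pos hT0 _
    calc T ^ (1 - κ) * ‖_‖ ≤ T ^ (1 - κ) * (‖∫ t : ℝ, Ft t * ((W t : ℝ) : ℂ)‖ +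
          ‖c' * ∫ t : ℝ, M t * ((W t : ℝ) : ℂ)‖) :=
          mul_le_mul_of_nonneg_left (norm_add_le _ _) hTp.le
      _ ≤ _ := by rw [mul_add]; linarith
  calc ∫ t : ℝ, ‖Lf (1 / 2 + t * I)‖ * bp ((t - T) / H)
      ≤ ∫ t : ℝ, K * ‖F t * ((W t : ℝ) : ℂ)‖ := by
        apply integral_mono_of_nonneg
        · filter_upwards with t
          exact mul_nonneg (norm_nonneg _) (bp_nonneg _)
        · exact hFW.norm.const_mul K
        · filter_upwards with t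
          exact hpt t
    _ = K * ‖∫ t : ℝ, F t * ((W t : ℝ) : ℂ)‖ := by rw [integral_const_mul, hnorm]
    _ = Real.exp (2 * (1 + 1)) / (c * c1) * (T ^ (1 - κ) * ‖∫ t : ℝ, F t * ((W t : ℝ) : ℂ)‖) := by
        rw [hK]; ring
    _ ≤ Real.exp (2 * (1 + 1)) / (c * c1) * ((D1 + D2) * H) := by gcongr
    _ = _ := by ring

end Pool.Agent.HL4
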