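import Pool.Agent.Lib_helper98.HNF.QG
import Pool.Agent.Lib_helper92.HL4.SB

/-! ## HL4, block SC: moving the line of integration in a short window -/

namespace Pool.Agent.HL4

open Complex MeasureTheory Filter Topology
open Pool.Agent.HQ (bp bp_contDiff bp_supp bp_nonneg bp_le_one bp_zero bp_deriv qg_F_deriv
  qg_F_deriv' qg_dF_cont)

/-- the derivatives of the window function -/
noncomputable def sc_w (T H : ℝ) (j : ℕ) (t : ℝ) : ℂ :=
  ((H⁻¹ ^ j * iteratedDeriv j bp ((t - T) / H) : ℝ) : ℂ)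

/-- the integral over the window on the line `σ` -/
noncomputable def sc_J (F : ℂ → ℂ) (T H : ℝ) (j : ℕ) (σ : ℝ) : ℂ :=
  ∫ t in T..(T + H), F (σ + t * I) * sc_w T H j t

theorem sc_w_deriv (T H : ℝ) (j : ℕ) (t : ℝ) :
    HasDerivAt (sc_w T H j) (sc_w T H (j + 1) t) t := by
  have h1 := (bp_deriv j).2.2.2 ((t - T) / H)
  have h2 : HasDerivAt (fun t : ℝ => (t - T) / H) (1 / H) t :=
    ((hasDerivAt_id t).sub_const T).div_const H
  have h3 := h1.comp t h2
  have h4 := (h3.const_mul (H⁻¹ ^ j)).ofReal_comp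
  convert! h4 using 1
  unfold sc_w
  congr 1
  rw [pow_succ, one_div]
  ring

theorem sc_w_cont (T H : ℝ) (j : ℕ) : Continuous (sc_w T H j) :=
  continuous_iff_continuousAt.2 fun t => (sc_w_deriv T H j t).continuousAt

theorem sc_w_zero {T H : ℝ} (hH : 0 < H) (j : ℕ) {t : ℝ}
    (ht : t ∉ Set.Ioo T (T + H)) : sc_w T H j t = 0 := by
  have h1 : (t - T) / H ∉ Set.Ioo (0 : ℝ) 1 := by
    intro h
    apply ht
    obtain ⟨h2, h3⟩ := h
    rw [div_lt_one hH] at h3
    rw [lt_div_iff₀ hH, zero_mul] at h2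
    constructor
    · linarith
    · linarith
  unfold sc_w
  rw [(bp_deriv j).2.1 _ h1]
  simp

theorem sc_J_deriv {F : ℂ → ℂ} (hF : Differentiable ℂ F) {T H : ℝ} (hH : 0 < H)
    (j : ℕ) (σ : ℝ) : HasDerivAt (sc_J F T H j) (I * sc_J F T H (j + 1) σ) σ := by
  have hc : Continuous (deriv F) := qg_dF_cont hF
  have hFc : Continuous F := hF.continuous
  have hw := sc_w_cont T H j
  -- the bound
  have hK : IsCompact ((fun p : ℝ × ℝ => deriv F (p.1 + p.2 * I) * sc_w T H j p.2) ''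
      (Set.Icc (σ - 1) (σ + 1) ×ˢ Set.uIcc T (T + H))) := by
    apply (isCompact_Icc.prod isCompact_uIcc).image
    fun_prop
  obtain ⟨M, hM⟩ := hK.isBounded.exists_norm_le
  have h1 := intervalIntegral.hasDerivAt_integral_of_dominated_loc_of_deriv_le
    (μ := volume) (a := T) (b := T + H) (x₀ := σ) (s := Set.Icc (σ - 1) (σ + 1))
    (F := fun (σ : ℝ) (t : ℝ) => F (σ + t * I) * sc_w T H j t)
    (F' := fun (σ : ℝ) (t : ℝ) => deriv F (σ + t * I) * sc_w T H j t)
    (bound := fun _ => M)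
    (Icc_mem_nhds (by linarith) (by linarith))
    (Filter.Eventually.of_forall fun x => Continuous.aestronglyMeasurable (by fun_prop))
    (Continuous.intervalIntegrable (by fun_prop) _ _)
    (Continuous.aestronglyMeasurable (by fun_prop))
    (Filter.Eventually.of_forall fun t ht x hx => hM _
      ⟨(x, t), ⟨hx, Set.uIoc_subset_uIcc ht⟩, rfl⟩)
    intervalIntegrable_const
    (Filter.Eventually.of_forall fun t ht x hx => (qg_F_deriv hF x t).mul_const _)
  have h2 := h1.2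
  have h3 : ∫ t in T..(T + H), deriv F (σ + t * I) * sc_w T H j t =
      I * sc_J F T H (j + 1) σ := by
    have h4 := intervalIntegral.integral_mul_deriv_eq_deriv_mul
      (a := T) (b := T + H) (u := fun t : ℝ => F (σ + t * I)) (v := sc_w T H j)
      (u' := fun t : ℝ => deriv F (σ + t * I) * I) (v' := sc_w T H (j + 1))
      (fun t _ => qg_F_deriv' hF σ t) (fun t _ => sc_w_deriv T H j t)
      (Continuous.intervalIntegrable (by fun_prop) _ _)
      (Continuous.intervalIntegrable (sc_w_cont T H (j + 1)) _ _)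
    rw [sc_w_zero hH j (t := T + H) (fun h => lt_irrefl _ h.2),
      sc_w_zero hH j (t := T) (fun h => lt_irrefl _ h.1)] at h4
    have h5 : ∫ t in T..(T + H), deriv F (σ + t * I) * I * sc_w T H j t =
        I * ∫ t in T..(T + H), deriv F (σ + t * I) * sc_w T H j t := by
      rw [← intervalIntegral.integral_const_mul]
      apply intervalIntegral.integral_congr
      intro t _
      ring
    rw [h5] at h4
    unfold sc_J
    rw [h4]
    have h6 : I * I = -1 := I_mul_I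
    linear_combination (∫ t in T..(T + H), deriv F (σ + t * I) * sc_w T H j t) * h6
  rw [h3] at h2
  exact h2

/-- the trivial bound -/
theorem sc_J_le {F : ℂ → ℂ} {T H : ℝ} (hH : 0 < H) (j : ℕ) {K : ℝ}
    (hK : ∀ u : ℝ, |iteratedDeriv j bp u| ≤ K) {σ D : ℝ}
    (hD : ∀ t : ℝ, T ≤ t → t ≤ T + H → ‖F (σ + t * I)‖ ≤ D) :
    ‖sc_J F T H j σ‖ ≤ D * (H⁻¹ ^ j * K) * H := by
  have hle : T ≤ T + H := by linarith
  have hK0 : 0 ≤ K := (abs_nonneg _).trans (hK 0)
  have h1 := intervalIntegral.norm_integral_le_of_norm_le_const (a := T) (b := T + H)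
    (f := fun t : ℝ => F (σ + t * I) * sc_w T H j t) (C := D * (H⁻¹ ^ j * K)) (by
      intro t ht
      rw [Set.uIoc_of_le hle] at ht
      rw [norm_mul]
      have hD' := hD t ht.1.le ht.2
      apply mul_le_mul hD' _ (norm_nonneg _) ((norm_nonneg _).trans hD')
      unfold sc_w
      rw [Complex.norm_real, Real.norm_eq_abs, abs_mul, abs_of_nonneg (by positivity)]
      exact mul_le_mul_of_nonneg_left (hK _) (by positivity))
  have h2 : |T + H - T| = H := by
    rw [show T + H - T = H by ring, abs_of_pos hH]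
  rw [h2] at h1
  exact h1

/-- powers of the length of the window -/
theorem sc_pow {H : ℝ} (hH : 1 ≤ H) {j : ℕ} (hj : 1 ≤ j) : H⁻¹ ^ j * H ≤ 1 := by
  obtain ⟨i, rfl⟩ : ∃ i, j = i + 1 := ⟨j - 1, by omega⟩
  have hp : 0 < H := by linarith
  rw [pow_succ, mul_assoc, inv_mul_cancel₀ hp.ne', mul_one]
  exact pow_le_one₀ (by positivity) (inv_le_one_of_one_le₀ hH)

theorem sc_main {F : ℂ → ℂ} (hF : Differentiable ℂ F) {x A : ℝ} (hx : x ≤ A) {C B : ℝ}
    (hB : 0 ≤ B)
    (hg : ∀ s : ℂ, x ≤ s.re → s.re ≤ A → 1 ≤ s.im → ‖F s‖ ≤ C * s.im ^ B) {C' : ℝ}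
    (hA : ∀ t : ℝ, 1 ≤ t → ‖F (A + t * I)‖ ≤ C') {N : ℕ} (hN : 2 * B + 1 ≤ N)
    (i : ℕ) : ∀ j : ℕ, 1 ≤ j → j + i = N →
      ∃ M : ℝ, ∀ T H : ℝ, 1 ≤ T → T ^ (1 / 2 : ℝ) ≤ H → H ≤ T → ∀ σ ∈ Set.Icc x A,
        ‖sc_J F T H j σ‖ ≤ M := by
  induction i with
  | zero =>
    intro j hj hji
    obtain rfl : j = N := by omega
    obtain ⟨K, hK⟩ := (bp_deriv j).1
    have hK0 : 0 ≤ K := (abs_nonneg _).trans (hK 0)
    refine ⟨|C| * 2 ^ B * K, ?_⟩
    intro T H hT hTH hHT σ hσ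
    have hT0 : 0 < T := by linarith
    have hH1 : 1 ≤ H := (Real.one_le_rpow hT (by norm_num)).trans hTH
    have hp : 0 < H := by linarith
    have h1 := sc_J_le (F := F) (T := T) hp j hK (σ := σ) (D := |C| * (2 * T) ^ B) (by
      intro t ht1 ht2
      have h2 := hg (σ + t * I) (by simpa using hσ.1) (by simpa using hσ.2)
        (by simpa using hT.trans ht1)
      refine h2.trans ?_
      have h3 : ((σ : ℂ) + t * I).im = t := by simp
      rw [h3]
      have ht0 : 0 ≤ t := by linarith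
      apply mul_le_mul (le_abs_self C) _ (Real.rpow_nonneg ht0 B) (abs_nonneg C)
      exact Real.rpow_le_rpow ht0 (by linarith) hB)
    refine h1.trans ?_
    rw [Real.mul_rpow (by positivity) hT0.le]
    have h4 : T ^ B * (H⁻¹ ^ j * H) ≤ 1 := by
      obtain ⟨i, rfl⟩ : ∃ i, j = i + 1 := ⟨j - 1, by omega⟩
      rw [pow_succ, mul_assoc, inv_mul_cancel₀ hp.ne', mul_one]
      have h6 : H⁻¹ ≤ T ^ (-(1 / 2) : ℝ) := by
        rw [Real.rpow_neg hT0.le]
        exact inv_anti₀ (Real.rpow_pos_of_pos hT0 _) hTH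
      calc T ^ B * H⁻¹ ^ i ≤ T ^ B * (T ^ (-(1 / 2) : ℝ)) ^ i := by gcongr
        _ = T ^ (B - i / 2) := by
            rw [← Real.rpow_natCast, ← Real.rpow_mul hT0.le, ← Real.rpow_add hT0]
            congr 1
            ring
        _ ≤ 1 := by
            apply Real.rpow_le_one_of_one_le_of_nonpos hT
            push_cast at hN
            linarith
    have h7 : |C| * (2 ^ B * T ^ B) * (H⁻¹ ^ j * K) * H =
        |C| * 2 ^ B * K * (T ^ B * (H⁻¹ ^ j * H)) := by ring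
    rw [h7]
    have h8 : 0 ≤ |C| * 2 ^ B * K := by positivity
    nlinarith
  | succ i ih =>
    intro j hj hji
    obtain ⟨M', hM'⟩ := ih (j + 1) (by omega) (by omega)
    obtain ⟨K, hK⟩ := (bp_deriv j).1
    have hK0 : 0 ≤ K := (abs_nonneg _).trans (hK 0)
    refine ⟨|C'| * K + M' * (A - x), ?_⟩
    intro T H hT hTH hHT σ hσ
    have hT0 : 0 < T := by linarith
    have hH1 : 1 ≤ H := (Real.one_le_rpow hT (by norm_num)).trans hTH
    have hp : 0 < H := by linarith
    have h1 := sc_J_le (F := F) (T := T) hp j hK (σ := A) (D := |C'|) (by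
      intro t ht1 _
      exact (hA t (hT.trans ht1)).trans (le_abs_self _))
    have h2 : ‖sc_J F T H j A‖ ≤ |C'| * K := by
      refine h1.trans ?_
      have h3 : |C'| * (H⁻¹ ^ j * K) * H = |C'| * K * (H⁻¹ ^ j * H) := by ring
      rw [h3]
      have h4 := sc_pow hH1 hj
      have h8 : 0 ≤ |C'| * K := by positivity
      nlinarith
    have h4 := Convex.norm_image_sub_le_of_norm_hasDerivWithin_le (s := Set.Icc x A)
      (f := sc_J F T H j) (f' := fun σ => I * sc_J F T H (j + 1) σ) (C := M')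
      (fun y _ => (sc_J_deriv hF hp j y).hasDerivWithinAt)
      (fun y hy => by
        rw [norm_mul, Complex.norm_I, one_mul]
        exact hM' T H hT hTH hHT y hy) (convex_Icc x A) (Set.right_mem_Icc.2 hx) hσ
    have hM0 : 0 ≤ M' := (norm_nonneg _).trans (hM' T H hT hTH hHT σ hσ)
    have h5 : ‖σ - A‖ ≤ A - x := by
      rw [Real.norm_eq_abs, abs_sub_comm, abs_of_nonneg (by linarith [hσ.2])]
      linarith [hσ.1]
    have h6 : ‖sc_J F T H j σ‖ ≤ ‖sc_J F T H j A‖ + ‖sc_J F T H j σ - sc_J F T H j A‖ := by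
      have := norm_add_le (sc_J F T H j A) (sc_J F T H j σ - sc_J F T H j A)
      rwa [add_sub_cancel] at this
    have h7 : M' * ‖σ - A‖ ≤ M' * (A - x) := mul_le_mul_of_nonneg_left h5 hM0
    linarith

theorem win_shift_s {F : ℂ → ℂ} (hF : Differentiable ℂ F) {x A : ℝ} (hx : x ≤ A) {C B : ℝ}
    (hB : 0 ≤ B)
    (hg : ∀ s : ℂ, x ≤ s.re → s.re ≤ A → 1 ≤ s.im → ‖F s‖ ≤ C * s.im ^ B) {C' : ℝ}
    (hA : ∀ t : ℝ, 1 ≤ t → ‖F (A + t * I)‖ ≤ C') :
    ∃ M : ℝ, ∀ T H : ℝ, 1 ≤ T → T ^ (1 / 2 : ℝ) ≤ H → H ≤ T →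
      ‖(∫ t : ℝ, F (x + t * I) * ((bp ((t - T) / H) : ℝ) : ℂ)) -
        ∫ t : ℝ, F (A + t * I) * ((bp ((t - T) / H) : ℝ) : ℂ)‖ ≤ M := by
  obtain ⟨N, hN⟩ := exists_nat_ge (2 * B + 1)
  have hN1 : 1 ≤ N := by
    have : (1 : ℝ) ≤ N := by linarith
    exact_mod_cast this
  obtain ⟨M, hM⟩ := sc_main hF hx hB hg hA hN (N - 1) 1 le_rfl (by omega)
  refine ⟨M * (A - x), ?_⟩
  intro T H hT hTH hHT
  have hT0 : 0 < T := by linarith
  have hH1 : 1 ≤ H := (Real.one_le_rpow hT (by norm_num)).trans hTH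
  have hp : 0 < H := by linarith
  have hle : T ≤ T + H := by linarith
  have key : ∀ σ : ℝ, ∫ t : ℝ, F (σ + t * I) * ((bp ((t - T) / H) : ℝ) : ℂ) =
      sc_J F T H 0 σ := by
    intro σ
    unfold sc_J
    have h1 : ∀ t : ℝ, ((bp ((t - T) / H) : ℝ) : ℂ) = sc_w T H 0 t := by
      intro t
      unfold sc_w
      rw [pow_zero, one_mul, iteratedDeriv_zero]
    simp only [h1]
    rw [intervalIntegral.integral_of_le hle]
    symm
    apply setIntegral_eq_integral_of_forall_compl_eq_zero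
    intro t ht
    rw [sc_w_zero hp 0 (fun h => ht ⟨h.1, h.2.le⟩), mul_zero]
  rw [key, key]
  have h4 := Convex.norm_image_sub_le_of_norm_hasDerivWithin_le (s := Set.Icc x A)
    (f := sc_J F T H 0) (f' := fun σ => I * sc_J F T H (0 + 1) σ) (C := M)
    (fun y _ => (sc_J_deriv hF hp 0 y).hasDerivWithinAt)
    (fun y hy => by
      rw [norm_mul, Complex.norm_I, one_mul]
      exact hM T H hT hTH hHT y hy) (convex_Icc x A) (Set.right_mem_Icc.2 hx)
      (Set.left_mem_Icc.2 hx)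
  have h5 : ‖x - A‖ = A - x := by
    rw [Real.norm_eq_abs, abs_sub_comm, abs_of_nonneg (by linarith)]
  rw [h5] at h4
  exact h4

end Pool.Agent.HL4
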