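import Pool.Agent.Lib_helper98.HNF.QA
import Pool.Agent.Lib_helper98.HNF.QH
import Pool.Agent.Lib_helper98.HNF.QI
import Pool.Agent.Lib_helper92.HL4.SC

/-! ## HL4, block SD: the twisted first moment over a short window; the functional is bounded -/

namespace Pool.Agent.HL4

open Complex MeasureTheory Filter Topology
open Pool.Agent.HQ (bp bp_contDiff bp_supp bp_nonneg bp_le_one bp_zero bp_pos PkgW qhf qh_half qh_A
  qh_line qh_subst qh_norm qh_oint qh_int' qh_val qi_main sign_const_on pkgw_ne)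
open Pool.Agent.H4 (FunBd atl)

theorem sd_eps {T H : ℝ} (hT : 0 < T) : H / T * T = H := by field_simp

theorem sd_osc_eq {T H : ℝ} (hT : 0 < T) (hH : 0 < H) (x : ℝ) :
    (H : ℂ)⁻¹ * ∫ t : ℝ, cexp ((t * x : ℝ) * I) * ((bp ((t - T) / H) : ℝ) : ℂ) =
      cexp ((T * x : ℝ) * I) *
        ∫ u : ℝ, cexp ((H * x * u : ℝ) * I) * ((bp u : ℝ) : ℂ) := by
  have h := Pool.Agent.HQ.qh_osc_eq (ε := H / T) (T := T) (div_pos hH hT) hT x
  rw [sd_eps hT] at h
  have hT' : (T : ℂ) ≠ 0 := by exact_mod_cast hT.ne'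
  have hH' : (H : ℂ) ≠ 0 := by exact_mod_cast hH.ne'
  rw [inv_mul_eq_iff_eq_mul₀ hT'] at h
  rw [inv_mul_eq_iff_eq_mul₀ hH', h]
  push_cast
  field_simp

theorem sd_osc {T H : ℕ → ℝ} (hT : ∀ n, 0 < T n) (hH : ∀ n, 0 < H n)
    (hHt : Tendsto H atTop atTop) (x : ℝ) :
    Tendsto (fun n : ℕ => (H n : ℂ)⁻¹ * ∫ t : ℝ, cexp ((t * x : ℝ) * I) *
      ((bp ((t - T n) / H n) : ℝ) : ℂ)) atTop
      (𝓝 (if x = 0 then ((∫ u : ℝ, bp u : ℝ) : ℂ) else 0)) := by
  have hev : (fun n : ℕ => cexp ((T n * x : ℝ) * I) *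
        ∫ u : ℝ, cexp ((H n * x * u : ℝ) * I) * ((bp u : ℝ) : ℂ)) =
      fun n : ℕ => (H n : ℂ)⁻¹ * ∫ t : ℝ, cexp ((t * x : ℝ) * I) *
      ((bp ((t - T n) / H n) : ℝ) : ℂ) := by
    funext n
    exact (sd_osc_eq (hT n) (hH n) x).symm
  rw [← hev]
  by_cases hx : x = 0
  · rw [if_pos hx]
    have h1 : (fun n : ℕ => cexp ((T n * x : ℝ) * I) *
        ∫ u : ℝ, cexp ((H n * x * u : ℝ) * I) * ((bp u : ℝ) : ℂ)) =
        fun _ => ((∫ u : ℝ, bp u : ℝ) : ℂ) := by
      funext n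
      simp only [hx, mul_zero, zero_mul, ofReal_zero, Complex.exp_zero, one_mul]
      rw [integral_complex_ofReal]
    rw [h1]
    exact tendsto_const_nhds
  · rw [if_neg hx]
    have h1 : Tendsto (fun n : ℕ => ∫ u : ℝ, cexp ((H n * x * u : ℝ) * I) * ((bp u : ℝ) : ℂ))
        atTop (𝓝 0) := by
      have h2 := Real.tendsto_integral_exp_smul_cocompact (fun u : ℝ => ((bp u : ℝ) : ℂ))
      have h3 : Tendsto (fun T : ℝ => -(T * x / (2 * Real.pi))) atTop (cocompact ℝ) := by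
        rw [← Metric.cobounded_eq_cocompact, ← tendsto_norm_atTop_iff_cobounded]
        have h4 : Tendsto (fun T : ℝ => (|x| / (2 * Real.pi)) * |T|) atTop atTop :=
          tendsto_abs_atTop_atTop.const_mul_atTop
            (div_pos (abs_pos.2 hx) (by positivity))
        refine h4.congr fun T => ?_
        rw [Real.norm_eq_abs, abs_neg, abs_div, abs_mul,
          abs_of_pos (by positivity : (0 : ℝ) < 2 * Real.pi)]
        ring
      refine (h2.comp (h3.comp hHt)).congr fun n => ?_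
      simp only [Function.comp]
      refine integral_congr_ae (ae_of_all _ fun u => ?_)
      simp only [Circle.smul_def, Real.fourierChar_apply, smul_eq_mul]
      congr 2
      push_cast
      have : (Real.pi : ℂ) ≠ 0 := by exact_mod_cast Real.pi_ne_zero
      field_simp
    refine squeeze_zero_norm (a := fun n : ℕ =>
      ‖∫ u : ℝ, cexp ((H n * x * u : ℝ) * I) * ((bp u : ℝ) : ℂ)‖) ?_ ?_
    · intro n
      rw [norm_mul, Complex.norm_exp_ofReal_mul_I, one_mul]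
    · have h4 := h1.norm
      rwa [norm_zero] at h4

theorem win_lim_s {a : ℕ → ℂ} {Λ Lf : ℂ → ℂ} {κ β : ℝ} (h : PkgW a Λ Lf κ β) {T H : ℕ → ℝ}
    (hT : ∀ n, 1 ≤ T n) (hTH : ∀ n, T n ^ (1 / 2 : ℝ) ≤ H n) (hHT : ∀ n, H n ≤ T n)
    (hHt : Tendsto H atTop atTop) {r : ℝ} (hr : 0 < r) :
    Tendsto (fun n : ℕ => (H n : ℂ)⁻¹ * ∫ t : ℝ, Lf (1 / 2 + t * I) *
      cexp ((t * Real.log r : ℝ) * I) * ((bp ((t - T n) / H n) : ℝ) : ℂ)) atTop
      (𝓝 (((∫ u : ℝ, bp u : ℝ) : ℂ) * atl a r)) := by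
  obtain ⟨A, hA, hs, hL⟩ := h.ser
  obtain ⟨C, B, hC0, hB0, hg⟩ := h.gr A
  have hT0 : ∀ n, 0 < T n := fun n => one_pos.trans_le (hT n)
  have hH0 : ∀ n, 0 < H n := fun n => lt_of_lt_of_le (Real.rpow_pos_of_pos (hT0 n) _) (hTH n)
  have hF : Differentiable ℂ (qhf Lf r) := by
    have := h.difff
    unfold qhf
    fun_prop
  have hexp : ∀ s : ℂ, 1 / 2 ≤ s.re → s.re ≤ A → ‖cexp ((s - 1 / 2) * Real.log r)‖ ≤
      Real.exp ((A - 1 / 2) * |Real.log r|) := by
    intro s h1 h2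
    rw [Complex.norm_exp]
    refine Real.exp_le_exp.mpr ?_
    have : ((s - 1 / 2) * (Real.log r : ℂ)).re = (s.re - 1 / 2) * Real.log r := by simp
    rw [this]
    calc (s.re - 1 / 2) * Real.log r ≤ (s.re - 1 / 2) * |Real.log r| :=
          mul_le_mul_of_nonneg_left (le_abs_self _) (by linarith)
      _ ≤ (A - 1 / 2) * |Real.log r| := mul_le_mul_of_nonneg_right (by linarith) (abs_nonneg _)
  obtain ⟨M, hM⟩ := win_shift_s hF (x := 1 / 2) (A := A) hA.le
    (C := C * Real.exp ((A - 1 / 2) * |Real.log r|)) hB0 (fun s h1 h2 h3 => by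
      unfold qhf
      rw [norm_mul]
      have h4 := mul_le_mul (hg s h1 h2 h3) (hexp s h1 h2) (norm_nonneg _)
        (mul_nonneg hC0 (Real.rpow_nonneg (by linarith) _))
      refine h4.trans (le_of_eq (by ring)))
    (C' := (∑' n : ℕ, ‖LSeries.term a (A : ℂ) n‖) * Real.exp ((A - 1 / 2) * |Real.log r|))
    (fun t _ => by
      unfold qhf
      rw [norm_mul]
      refine mul_le_mul ?_ (hexp _ (by simpa using hA.le) (by simp)) (norm_nonneg _)
        (tsum_nonneg fun _ => norm_nonneg _)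
      rw [hL _ (by simp), LSeries]
      refine (norm_tsum_le_tsum_norm ?_).trans (le_of_eq ?_)
      · refine hs.norm.congr fun n => ?_
        rw [Pool.Agent.H4.li_term, norm_mul, Complex.norm_exp_ofReal_mul_I, mul_one]
      · refine tsum_congr fun n => ?_
        rw [Pool.Agent.H4.li_term, norm_mul, Complex.norm_exp_ofReal_mul_I, mul_one])
  set c : ℂ := ((∫ u : ℝ, bp u : ℝ) : ℂ) with hc
  have hHi : Tendsto (fun n => (H n)⁻¹) atTop (𝓝 0) := tendsto_inv_atTop_zero.comp hHt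
  -- the main term
  have hmain : Tendsto (fun n : ℕ => (H n : ℂ)⁻¹ *
      ∫ t : ℝ, qhf Lf r ((A : ℂ) + t * I) * ((bp ((t - T n) / H n) : ℝ) : ℂ)) atTop
      (𝓝 (c * atl a r)) := by
    rw [← Pool.Agent.H4.li_val a A hr c]
    have h1 : Tendsto (fun n : ℕ => ∑' j : ℕ, LSeries.term a (A : ℂ) j * ((H n : ℂ)⁻¹ *
        ∫ t : ℝ, cexp ((t * (Real.log r - Real.log j) : ℝ) * I) *
          ((bp ((t - T n) / H n) : ℝ) : ℂ)))
        atTop (𝓝 (∑' j : ℕ, LSeries.term a (A : ℂ) j *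
          (if Real.log r - Real.log j = 0 then c else 0))) := by
      refine tendsto_tsum_of_dominated_convergence (bound := fun j =>
        ‖LSeries.term a (A : ℂ) j‖ * (∫ u : ℝ, bp u)) (hs.norm.mul_right _) ?_ ?_
      · intro j
        exact (sd_osc hT0 hH0 hHt (Real.log r - Real.log j)).const_mul _
      · refine Filter.Eventually.of_forall fun n j => ?_
        rw [norm_mul, norm_mul, norm_inv, norm_real, Real.norm_of_nonneg (hH0 n).le]
        refine mul_le_mul_of_nonneg_left ?_ (norm_nonneg _)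
        have h2 := norm_integral_le_integral_norm (μ := (volume : Measure ℝ)) (fun t : ℝ =>
          cexp ((t * (Real.log r - Real.log j) : ℝ) * I) *
            ((bp ((t - T n) / H n) : ℝ) : ℂ))
        have h3 := qh_norm (ε := H n / T n) (T := T n) (div_pos (hH0 n) (hT0 n)) (hT0 n)
          (Real.log r - Real.log j)
        rw [sd_eps (hT0 n)] at h3
        rw [h3] at h2
        have hne := (hH0 n).ne'
        calc (H n)⁻¹ * _ ≤ (H n)⁻¹ * (H n * ∫ u : ℝ, bp u) :=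
              mul_le_mul_of_nonneg_left h2 (inv_nonneg.2 (hH0 n).le)
          _ = ∫ u : ℝ, bp u := by field_simp
    refine (h1.mul_const (cexp (((A - 1 / 2) * Real.log r : ℝ)))).congr fun n => ?_
    have h4 := qh_line hs hL r (ε := H n / T n) (T := T n) (div_pos (hH0 n) (hT0 n)) (hT0 n)
    rw [sd_eps (hT0 n)] at h4
    rw [h4, ← mul_assoc, ← tsum_mul_left]
    congr 1
    refine tsum_congr fun j => ?_
    ring
  have hdiff : Tendsto (fun n : ℕ => (H n : ℂ)⁻¹ *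
      ((∫ t : ℝ, qhf Lf r (((1 / 2 : ℝ) : ℂ) + t * I) * ((bp ((t - T n) / H n) : ℝ) : ℂ)) -
      ∫ t : ℝ, qhf Lf r ((A : ℂ) + t * I) * ((bp ((t - T n) / H n) : ℝ) : ℂ))) atTop (𝓝 0) := by
    refine squeeze_zero_norm (a := fun n : ℕ => (H n)⁻¹ * M) ?_ ?_
    · intro n
      rw [norm_mul, norm_inv, norm_real, Real.norm_of_nonneg (hH0 n).le]
      exact mul_le_mul_of_nonneg_left (hM (T n) (H n) (hT n) (hTH n) (hHT n))
        (inv_nonneg.2 (hH0 n).le)
    · have := hHi.mul_const M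
      rwa [zero_mul] at this
  have hsum := hdiff.add hmain
  rw [zero_add] at hsum
  refine hsum.congr fun n => ?_
  rw [← mul_add, sub_add_cancel]
  simp_rw [qh_half]

theorem sd_cs {T H : ℝ} (hH : 0 < H) : HasCompactSupport (fun t : ℝ => bp ((t - T) / H)) := by
  have h1 : (fun t : ℝ => bp ((t - T) / H)) =
      bp ∘ ((Homeomorph.addRight (-T)).trans
        (Homeomorph.mulRight₀ H⁻¹ (inv_ne_zero hH.ne'))) := by
    funext t
    simp [div_eq_mul_inv, sub_eq_add_neg]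
  rw [h1]
  exact bp_supp.comp_homeomorph _

/-- block SD -/
theorem short_fun_bd_pr {a : ℕ → ℂ} {Λ Lf : ℂ → ℂ} {κ β : ℝ} (hβ : 0 < β) (hκ : 0 < κ)
    (h : PkgW a Λ Lf κ β) (hU : Ups Λ κ β) (ha : a 1 ≠ 0)
    (hT : ∀ T₀ : ℝ, ∃ T H : ℝ, T₀ ≤ T ∧ T ^ (99 / 100 : ℝ) ≤ H ∧ H ≤ T ∧
      ∀ t : ℝ, T < t → t < T + H → ¬ Odd (analyticOrderNatAt Λ (1 / 2 + t * I))) :
    ∃ C : ℝ, FunBd a C := by
  obtain ⟨ω, hω, hr⟩ := h.real
  have hω0 : ω ≠ 0 := by
    rw [← norm_pos_iff, hω]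
    exact one_pos
  obtain ⟨C, T₀, hT₀, hbd⟩ := win_bd_s hβ hκ h hU
  choose T H hT1 hT2 hT3 hT4 using fun n : ℕ => hT (max (n : ℝ) T₀)
  have hT5 : ∀ n, 1 ≤ T n := fun n => hT₀.trans ((le_max_right _ _).trans (hT1 n))
  have hT0 : ∀ n, 0 < T n := fun n => one_pos.trans_le (hT5 n)
  have hTt : Tendsto T atTop atTop :=
    tendsto_atTop_mono (fun n => (le_max_left _ _).trans (hT1 n)) tendsto_natCast_atTop_atTop
  have hH0 : ∀ n, 0 < H n := fun n => lt_of_lt_of_le (Real.rpow_pos_of_pos (hT0 n) _) (hT2 n)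
  have hHt : Tendsto H atTop atTop :=
    tendsto_atTop_mono hT2 ((tendsto_rpow_atTop (by norm_num)).comp hTt)
  have hTH : ∀ n, T n ^ (1 / 2 : ℝ) ≤ H n := fun n =>
    (Real.rpow_le_rpow_of_exponent_le (hT5 n) (by norm_num)).trans (hT2 n)
  refine ⟨C / (∫ u : ℝ, bp u), qi_main h.difff.continuous hH0 hHt
    (fun n => sb_cont (T n) (H n)) (fun n => sd_cs (hH0 n)) (fun n t => bp_nonneg _) bp_pos ?_ ?_⟩
  · intro n
    obtain ⟨σ, hσ, hsig⟩ := sign_const_on h.diffL (pkgw_ne h ha) hω0 hr (hT4 n)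
    exact hbd (T n) (H n) ((le_max_right _ _).trans (hT1 n)) (hT2 n) (hT3 n) σ hσ hsig
  · intro r hr
    exact win_lim_s h hT5 hTH hT3 hHt hr

end Pool.Agent.HL4
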