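import Pool.Agent.Lib_helper98.HNF.QC
import Pool.Agent.Lib_helper68.HL4.Defs

/-! ## HL4, block UG: (G) implies (UPS); the exact formula for the rotated moments (from QC.hk_bdq) -/

namespace Pool.Agent.HL4

open Complex MeasureTheory Filter Topology
open Pool.Agent.HSG.N (HK LamH qcf qc_LamH qc_vert hk_entire hk_bdq)

variable {m : ℕ} {Q : ℝ} {G : ℂ → ℂ}

theorem hk_momq (h : HK m Q G) {θ : ℝ} (h0 : 0 ≤ θ) (h1 : θ < Real.pi / 2) (x : ℝ) :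
    ∫ t : ℝ, LamH m Q G (1 / 2 + t * Complex.I) * ((Real.exp (2 * θ * t) : ℝ) : ℂ) *
      cexp ((x * t : ℝ) * Complex.I) =
    2 * Real.pi * (Q : ℂ) ^ ((1 / 2 : ℂ) - (m : ℂ) / 4) * cexp ((θ * (m / 2) : ℝ) * Complex.I) *
        ((Real.exp (-(x * m / 4)) : ℝ) : ℂ) *
      G (Complex.I * cexp (θ * Complex.I) * ((Q ^ (-(1 / 2) : ℝ) * Real.exp (-(x / 2)) : ℝ) : ℂ)) := by
  have hQ := h.qpos
  have habs : |θ| < Real.pi / 2 := by rw [abs_of_nonneg h0]; exact h1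
  have hcos : 0 < Real.cos θ := Real.cos_pos_of_mem_Ioo ⟨by linarith [Real.pi_pos], h1⟩
  have hQh : 0 < Q ^ (-(1 / 2) : ℝ) := Real.rpow_pos_of_pos hQ _
  set ρ0 : ℝ := Q ^ (-(1 / 2) : ℝ) * Real.exp (-(x / 2)) with hρ0
  have hρ : 0 < ρ0 := mul_pos hQh (Real.exp_pos _)
  have hlog : Real.log ρ0 = -(1 / 2) * Real.log Q - x / 2 := by
    rw [hρ0, Real.log_mul hQh.ne' (Real.exp_pos _).ne', Real.log_rpow hQ, Real.log_exp]
    ring
  have him : (Complex.I * cexp (θ * Complex.I) * (ρ0 : ℂ)).im = ρ0 * Real.cos θ := by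
    rw [Complex.exp_mul_I, ← Complex.ofReal_cos, ← Complex.ofReal_sin]
    simp only [Complex.mul_im, Complex.mul_re, Complex.add_re, Complex.add_im, Complex.I_re,
      Complex.I_im, Complex.ofReal_re, Complex.ofReal_im]
    ring
  have hconv : MellinConvergent (qcf G θ) (((m : ℝ) / 2 : ℝ) : ℂ) := (hk_entire h θ habs).1 _
  have hcont : ContinuousAt (qcf G θ) ρ0 := by
    have hopen : IsOpen {z : ℂ | 0 < z.im} := isOpen_lt continuous_const Complex.continuous_im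
    have h3 : ContinuousAt G (Complex.I * cexp (θ * Complex.I) * (ρ0 : ℂ)) := by
      apply (h.holo.differentiableAt (hopen.mem_nhds ?_)).continuousAt
      show 0 < (Complex.I * cexp (θ * Complex.I) * (ρ0 : ℂ)).im
      rw [him]
      positivity
    exact ContinuousAt.comp (f := fun ρ : ℝ => Complex.I * cexp (θ * Complex.I) * (ρ : ℂ)) h3
      (by fun_prop)
  have hinv := mellinInv_mellin_eq ((m : ℝ) / 2) (qcf G θ) hρ hconv (qc_vert h θ h0 h1) hcont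
  unfold mellinInv at hinv
  set F : ℝ → ℂ := fun y => (Q : ℂ) ^ (((m : ℂ) / 4) + (y / 2 : ℝ) * Complex.I) *
        cexp ((x : ℂ) / 2 * ((m : ℂ) / 2 + y * Complex.I)) *
        mellin (qcf G θ) ((m : ℂ) / 2 + y * Complex.I) with hF
  have hQ0 : (Q : ℂ) ≠ 0 := by exact_mod_cast hQ.ne'
  have e1 : ∀ y : ℝ, ((ρ0 : ℂ)) ^ (-((((m : ℝ) / 2 : ℝ) : ℂ) + y * Complex.I)) •
      mellin (qcf G θ) ((((m : ℝ) / 2 : ℝ) : ℂ) + y * Complex.I) = F y := by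
    intro y
    rw [smul_eq_mul, hF]
    simp only
    congr 1
    · rw [Complex.cpow_def_of_ne_zero (by exact_mod_cast hρ.ne'),
        Complex.cpow_def_of_ne_zero hQ0, ← Complex.ofReal_log hρ.le, ← Complex.ofReal_log hQ.le,
        hlog, ← Complex.exp_add]
      congr 1
      push_cast
      ring
    · congr 1
      push_cast
      ring
  simp_rw [e1] at hinv
  have e2 := Measure.integral_comp_mul_left F 2
  have hpi := Real.pi_pos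
  have e3 : ∫ y, F y = ((2 * Real.pi : ℝ) : ℂ) * qcf G θ ρ0 := by
    rw [← hinv, Complex.real_smul]
    have : (Real.pi : ℂ) ≠ 0 := by exact_mod_cast hpi.ne'
    push_cast
    field_simp
  have e4 : ∀ t : ℝ, LamH m Q G (1 / 2 + t * Complex.I) * ((Real.exp (2 * θ * t) : ℝ) : ℂ) *
      cexp ((x * t : ℝ) * Complex.I) =
      (2 * (Q : ℂ) ^ ((1 / 2 : ℂ) - (m : ℂ) / 4) * cexp ((θ * (m / 2) : ℝ) * Complex.I) *
        ((Real.exp (-(x * m / 4)) : ℝ) : ℂ)) * F (2 * t) := by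
    intro t
    rw [qc_LamH h θ h0 h1 t, hF]
    simp only
    have e5 : (Q : ℂ) ^ ((1 / 2 : ℂ) + t * Complex.I) = (Q : ℂ) ^ ((1 / 2 : ℂ) - (m : ℂ) / 4) *
        (Q : ℂ) ^ ((m : ℂ) / 4 + ((2 * t / 2 : ℝ) : ℂ) * Complex.I) := by
      rw [← Complex.cpow_add _ _ hQ0]
      congr 1
      push_cast
      ring
    have e6 : cexp ((x * t : ℝ) * Complex.I) = ((Real.exp (-(x * m / 4)) : ℝ) : ℂ) *
        cexp ((x : ℂ) / 2 * ((m : ℂ) / 2 + (2 * t : ℝ) * Complex.I)) := by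
      rw [Complex.ofReal_exp, ← Complex.exp_add]
      congr 1
      push_cast
      ring
    rw [e5, e6]
    ring
  simp_rw [e4]
  rw [integral_const_mul, e2, e3]
  have e7 : (|(2 : ℝ)⁻¹| : ℝ) = 1 / 2 := by
    rw [abs_of_pos (by norm_num)]
    norm_num
  rw [e7, Complex.real_smul]
  show _ = 2 * Real.pi * (Q : ℂ) ^ ((1 / 2 : ℂ) - (m : ℂ) / 4) * cexp ((θ * (m / 2) : ℝ) * Complex.I) *
        ((Real.exp (-(x * m / 4)) : ℝ) : ℂ) * qcf G θ ρ0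
  push_cast
  ring

theorem ug_theta {δ : ℝ} (h0 : 0 < δ) (h1 : δ ≤ 1) :
    0 ≤ (Real.pi - δ) / 2 ∧ (Real.pi - δ) / 2 < Real.pi / 2 ∧
      δ / Real.pi ≤ Real.cos ((Real.pi - δ) / 2) := by
  have hpi := Real.pi_gt_three
  refine ⟨by linarith, by linarith, ?_⟩
  have e : (Real.pi - δ) / 2 = Real.pi / 2 - δ / 2 := by ring
  rw [e, Real.cos_pi_div_two_sub]
  have h := Real.mul_le_sin (x := δ / 2) (by linarith) (by linarith)
  refine le_trans (le_of_eq ?_) h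
  field_simp

/-- the point -/
theorem ug_point (Q δ x : ℝ) :
    Complex.I * cexp ((((Real.pi - δ) / 2 : ℝ) : ℂ) * Complex.I) *
      ((Q ^ (-(1 / 2) : ℝ) * Real.exp (-(x / 2)) : ℝ) : ℂ) =
    -(((Q ^ (-(1 / 2) : ℝ) : ℝ) : ℂ) * cexp (-om2 δ x)) := by
  unfold om2
  have e1 : Complex.I = cexp ((Real.pi / 2 : ℂ) * Complex.I) := Complex.exp_pi_div_two_mul_I.symm
  have e2 : (((Q ^ (-(1 / 2) : ℝ) * Real.exp (-(x / 2)) : ℝ)) : ℂ) =
      ((Q ^ (-(1 / 2) : ℝ) : ℝ) : ℂ) * cexp (-(x / 2)) := by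
    push_cast
    rfl
  have e3 : Complex.I * cexp ((((Real.pi - δ) / 2 : ℝ) : ℂ) * Complex.I) * cexp (-(x / 2)) =
      cexp (Real.pi * Complex.I) * cexp (-((((x : ℂ) + δ * Complex.I) / 2))) := by
    conv_lhs => rw [show Complex.I * cexp ((((Real.pi - δ) / 2 : ℝ) : ℂ) * Complex.I) =
      cexp ((Real.pi / 2 : ℂ) * Complex.I) * cexp ((((Real.pi - δ) / 2 : ℝ) : ℂ) * Complex.I) by
        rw [← e1]]
    rw [← Complex.exp_add, ← Complex.exp_add, ← Complex.exp_add]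
    congr 1
    push_cast
    ring
  rw [e2, mul_left_comm, e3, Complex.exp_pi_mul_I]
  ring

/-- the exact formula, in terms of `δ` -/
theorem ug_mom (h : HK m Q G) {δ : ℝ} (h0 : 0 < δ) (h1 : δ ≤ 1) (x : ℝ) :
    ∫ t : ℝ, LamH m Q G (1 / 2 + t * Complex.I) * ((Real.exp ((Real.pi - δ) * t) : ℝ) : ℂ) *
      cexp ((x * t : ℝ) * Complex.I) =
    2 * Real.pi * (Q : ℂ) ^ ((1 / 2 : ℂ) - (m : ℂ) / 4) * cexp ((Real.pi * m / 4 : ℝ) * Complex.I) *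
      cexp (-(((x : ℂ) + δ * Complex.I) * m / 4)) *
      G (-(((Q ^ (-(1 / 2) : ℝ) : ℝ) : ℂ) * cexp (-om2 δ x))) := by
  obtain ⟨t0, t1, _⟩ := ug_theta h0 h1
  have e := hk_momq h t0 t1 x
  rw [ug_point] at e
  have e2 : ∀ t : ℝ, 2 * ((Real.pi - δ) / 2) * t = (Real.pi - δ) * t := fun t => by ring
  simp only [e2] at e
  rw [e]
  have e3 : cexp ((((Real.pi - δ) / 2 * (m / 2) : ℝ)) * Complex.I) *
      ((Real.exp (-(x * m / 4)) : ℝ) : ℂ) = cexp ((Real.pi * m / 4 : ℝ) * Complex.I) *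
      cexp (-(((x : ℂ) + δ * Complex.I) * m / 4)) := by
    rw [Complex.ofReal_exp, ← Complex.exp_add, ← Complex.exp_add]
    congr 1
    push_cast
    ring
  rw [mul_assoc (2 * (Real.pi : ℂ) * (Q : ℂ) ^ ((1 / 2 : ℂ) - (m : ℂ) / 4)), e3]
  ring

theorem ug_exp1 (m : ℕ) : ∃ C : ℝ, 0 ≤ C ∧ ∀ δ x : ℝ, 0 < δ → δ ≤ 1 → |x| ≤ 1 →
    ‖cexp (-(((x : ℂ) + δ * Complex.I) * m / 4)) - 1‖ ≤ C * (|x| + δ) ∧
    ‖cexp (-(((x : ℂ) + δ * Complex.I) * m / 4))‖ ≤ C := by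
  refine ⟨(m / 4 + 1) * Real.exp (m / 2), by positivity, fun δ x h0 h1 hx => ?_⟩
  set z : ℂ := -(((x : ℂ) + δ * Complex.I) * m / 4) with hz
  have hzn : ‖z‖ ≤ (m : ℝ) / 4 * (|x| + δ) := by
    rw [hz, norm_neg, norm_div, norm_mul]
    have e1 : ‖(x : ℂ) + δ * Complex.I‖ ≤ |x| + δ := by
      refine (norm_add_le _ _).trans ?_
      rw [norm_mul, Complex.norm_I, mul_one, Complex.norm_real, Complex.norm_real,
        Real.norm_eq_abs, Real.norm_eq_abs, abs_of_pos h0]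
    have e2 : ‖(m : ℂ)‖ = m := by simp
    have e3 : ‖(4 : ℂ)‖ = 4 := by simp
    rw [e2, e3]
    calc ‖(x : ℂ) + δ * Complex.I‖ * m / 4 ≤ (|x| + δ) * m / 4 := by gcongr
      _ = (m : ℝ) / 4 * (|x| + δ) := by ring
  have hz2 : ‖z‖ ≤ (m : ℝ) / 2 := by
    refine hzn.trans ?_
    have hm0 : (0 : ℝ) ≤ m / 4 := by positivity
    nlinarith
  have hexp : ‖cexp z‖ ≤ Real.exp (m / 2) := by
    rw [Complex.norm_exp]
    exact Real.exp_le_exp.2 ((Complex.re_le_norm z).trans hz2)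
  have h1' : ‖cexp z - 1‖ ≤ ‖z‖ * Real.exp ‖z‖ := by
    have := Complex.norm_exp_sub_sum_le_norm_mul_exp z 1
    simpa using this
  constructor
  · have h5 : Real.exp ‖z‖ ≤ Real.exp (m / 2) := Real.exp_le_exp.2 hz2
    calc ‖cexp z - 1‖ ≤ ‖z‖ * Real.exp ‖z‖ := h1'
      _ ≤ ((m : ℝ) / 4 * (|x| + δ)) * Real.exp (m / 2) :=
          mul_le_mul hzn h5 (Real.exp_nonneg _) (by positivity)
      _ ≤ (m / 4 + 1) * Real.exp (m / 2) * (|x| + δ) := by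
          have h6 : 0 ≤ Real.exp ((m : ℝ) / 2) * (|x| + δ) := by positivity
          nlinarith
  · refine hexp.trans ?_
    have h6 : (0 : ℝ) ≤ m / 4 := by positivity
    nlinarith [Real.exp_pos ((m : ℝ) / 2)]

theorem ug_norm_cpow {δ : ℝ} (h0 : 0 < δ) (x : ℝ) {κ : ℝ} (hκ : 0 ≤ κ) :
    ‖((δ : ℂ) - x * Complex.I) ^ (-(κ : ℂ))‖ ≤ δ ^ (-κ) ∧
    (1 ≤ |x| → ‖((δ : ℂ) - x * Complex.I) ^ (-(κ : ℂ))‖ ≤ 1) := by
  have hre : ((δ : ℂ) - x * Complex.I).re = δ := by simp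
  have him : ((δ : ℂ) - x * Complex.I).im = -x := by simp
  have hne : ((δ : ℂ) - x * Complex.I) ≠ 0 := by
    intro h
    rw [h] at hre
    simp at hre
    linarith
  have e : -(κ : ℂ) = ((-κ : ℝ) : ℂ) := by push_cast; ring
  have hn : ‖((δ : ℂ) - x * Complex.I) ^ (-(κ : ℂ))‖ = ‖(δ : ℂ) - x * Complex.I‖ ^ (-κ) := by
    rw [e, Complex.norm_cpow_real]
  have h1 : δ ≤ ‖(δ : ℂ) - x * Complex.I‖ := by
    have := Complex.abs_re_le_norm ((δ : ℂ) - x * Complex.I)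
    rw [hre, abs_of_pos h0] at this
    exact this
  have h2 : |x| ≤ ‖(δ : ℂ) - x * Complex.I‖ := by
    have := Complex.abs_im_le_norm ((δ : ℂ) - x * Complex.I)
    rw [him, abs_neg] at this
    exact this
  rw [hn]
  refine ⟨Real.rpow_le_rpow_of_nonpos h0 h1 (by linarith), fun hx => ?_⟩
  exact Real.rpow_le_one_of_one_le_of_nonpos (hx.trans h2) (by linarith)

/-- block UG -/
theorem ups_of_G_pr (h : HK m Q G) (hG : GAs m Q G) :
    Ups (LamH m Q G) ((m : ℝ) / 2) Real.pi := by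
  obtain ⟨c, C, hC⟩ := hG
  obtain ⟨Ce, hCe0, hCe⟩ := ug_exp1 m
  obtain ⟨D, hD⟩ := hk_bdq h
  have hκ : (0 : ℝ) ≤ (m : ℝ) / 2 := by positivity
  have hpi := Real.pi_pos
  set κ : ℝ := (m : ℝ) / 2 with hκd
  have hκc : ((m : ℂ) / 2) = (κ : ℂ) := by rw [hκd]; push_cast; ring
  set K : ℂ := 2 * Real.pi * (Q : ℂ) ^ ((1 / 2 : ℂ) - (m : ℂ) / 4) *
    cexp ((Real.pi * m / 4 : ℝ) * Complex.I) with hK
  have hC0 : 0 ≤ C := by
    have h1 := hC 1 0 one_pos le_rfl (by simp)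
    have h2 := (norm_nonneg _).trans h1
    simpa using h2
  have hD0 : 0 ≤ D := by
    have h1 := hD 0 le_rfl (by positivity) 0
    have h2 := (norm_nonneg _).trans h1
    simpa using h2
  refine ⟨K * c, ‖K‖ * Ce * C + ‖K‖ * ‖c‖ * Ce + (D * (1 / Real.pi) ^ (-κ) + ‖K‖ * ‖c‖),
    fun δ h0 h1 x => ?_⟩
  obtain ⟨n1, n2⟩ := ug_norm_cpow h0 x hκ
  have hδκ : 0 < δ ^ (-κ) := Real.rpow_pos_of_pos h0 _
  set S : ℝ := 1 + |x| / δ with hS
  have hS1 : 1 ≤ S := by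
    rw [hS]
    have : 0 ≤ |x| / δ := by positivity
    linarith
  have hSS : S ≤ S ^ 2 := by nlinarith
  have hpw : δ ≤ δ ^ (3 / 100 : ℝ) := by
    conv_lhs => rw [← Real.rpow_one δ]
    exact Real.rpow_le_rpow_of_exponent_ge h0 h1 (by norm_num)
  have hsplit : δ ^ (-κ + 3 / 100) = δ ^ (-κ) * δ ^ (3 / 100 : ℝ) := Real.rpow_add h0 _ _
  have hp3 : 0 < δ ^ (3 / 100 : ℝ) := Real.rpow_pos_of_pos h0 _
  have hR0 : 0 ≤ δ ^ (-κ + 3 / 100) * S ^ 2 := by positivity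
  by_cases hx : |x| ≤ 1
  · -- the main case
    rw [ug_mom h h0 h1 x, ← hK]
    set E : ℂ := cexp (-(((x : ℂ) + δ * Complex.I) * m / 4)) with hE
    set g : ℂ := G (-(((Q ^ (-(1 / 2) : ℝ) : ℝ) : ℂ) * cexp (-om2 δ x))) with hg
    set p : ℂ := ((δ : ℂ) - x * Complex.I) ^ (-(κ : ℂ)) with hp
    obtain ⟨a1, a2⟩ := hCe δ x h0 h1 hx
    have b1 := hC δ x h0 h1 hx
    rw [hκc, ← hp, ← hg] at b1
    have hid : K * E * g - K * c * p = K * E * (g - c * p) + K * c * (E - 1) * p := by ring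
    rw [hid]
    refine (norm_add_le _ _).trans ?_
    have f1 : ‖K * E * (g - c * p)‖ = ‖K‖ * ‖E‖ * ‖g - c * p‖ := by rw [norm_mul, norm_mul K E]
    have f2 : ‖K * c * (E - 1) * p‖ = ‖K‖ * ‖c‖ * ‖E - 1‖ * ‖p‖ := by
      rw [norm_mul, norm_mul (K * c), norm_mul K c]
    rw [f1, f2]
    have c1 : ‖K‖ * ‖E‖ * ‖g - c * p‖ ≤ ‖K‖ * Ce * C * (δ ^ (-κ + 3 / 100) * S ^ 2) := by
      calc ‖K‖ * ‖E‖ * ‖g - c * p‖ ≤ ‖K‖ * Ce * (C * δ ^ (-κ + 3 / 100) * S ^ 2) := by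
            gcongr
        _ = _ := by ring
    have c2 : ‖K‖ * ‖c‖ * ‖E - 1‖ * ‖p‖ ≤ ‖K‖ * ‖c‖ * Ce * (δ ^ (-κ + 3 / 100) * S ^ 2) := by
      have hxd : |x| + δ = δ * S := by
        rw [hS]
        field_simp
        ring
      have c3 : (|x| + δ) * δ ^ (-κ) ≤ δ ^ (-κ + 3 / 100) * S ^ 2 := by
        rw [hxd, hsplit]
        calc δ * S * δ ^ (-κ) ≤ δ ^ (3 / 100 : ℝ) * S ^ 2 * δ ^ (-κ) := by gcongr
          _ = _ := by ring
      calc ‖K‖ * ‖c‖ * ‖E - 1‖ * ‖p‖ ≤ ‖K‖ * ‖c‖ * (Ce * (|x| + δ)) * δ ^ (-κ) := by gcongr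
        _ = ‖K‖ * ‖c‖ * Ce * ((|x| + δ) * δ ^ (-κ)) := by ring
        _ ≤ _ := by gcongr
    have c4 : 0 ≤ (D * (1 / Real.pi) ^ (-κ) + ‖K‖ * ‖c‖) * (δ ^ (-κ + 3 / 100) * S ^ 2) := by
      positivity
    calc _ ≤ ‖K‖ * Ce * C * (δ ^ (-κ + 3 / 100) * S ^ 2) +
          ‖K‖ * ‖c‖ * Ce * (δ ^ (-κ + 3 / 100) * S ^ 2) := add_le_add c1 c2
      _ ≤ _ := by nlinarith
  · -- the trivial case
    push Not at hx
    obtain ⟨t0, t1, t2⟩ := ug_theta h0 h1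
    have d1 := hD ((Real.pi - δ) / 2) t0 t1 x
    have e2 : ∀ t : ℝ, 2 * ((Real.pi - δ) / 2) * t = (Real.pi - δ) * t := fun t => by ring
    simp only [e2] at d1
    have d2 : Real.cos ((Real.pi - δ) / 2) ^ (-κ) ≤ (1 / Real.pi) ^ (-κ) * δ ^ (-κ) := by
      rw [← Real.mul_rpow (by positivity) h0.le]
      refine Real.rpow_le_rpow_of_nonpos (by positivity) ?_ (by linarith)
      refine le_trans (le_of_eq ?_) t2
      ring
    have d3 : δ ^ (-κ) ≤ δ ^ (-κ + 3 / 100) * S ^ 2 := by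
      have hxS : 1 ≤ δ * S := by
        rw [hS]
        have : δ * (1 + |x| / δ) = δ + |x| := by field_simp
        rw [this]
        linarith
      have h5 : 1 ≤ δ ^ (3 / 100 : ℝ) * S ^ 2 := by
        calc (1 : ℝ) ≤ δ * S := hxS
          _ ≤ δ ^ (3 / 100 : ℝ) * S ^ 2 := by gcongr
      rw [hsplit]
      nlinarith
    have d4 : ‖K * c * ((δ : ℂ) - x * Complex.I) ^ (-(κ : ℂ))‖ ≤ ‖K‖ * ‖c‖ * δ ^ (-κ) := by
      rw [norm_mul, norm_mul]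
      gcongr
    refine (norm_sub_le _ _).trans ?_
    have hDk : 0 ≤ D * (1 / Real.pi) ^ (-κ) := by positivity
    have hKc : 0 ≤ ‖K‖ * ‖c‖ := by positivity
    have hrest : 0 ≤ (‖K‖ * Ce * C + ‖K‖ * ‖c‖ * Ce) * (δ ^ (-κ + 3 / 100) * S ^ 2) := by
      positivity
    calc _ ≤ D * ((1 / Real.pi) ^ (-κ) * δ ^ (-κ)) + ‖K‖ * ‖c‖ * δ ^ (-κ) :=
          add_le_add (d1.trans (mul_le_mul_of_nonneg_left d2 hD0)) d4
      _ = (D * (1 / Real.pi) ^ (-κ) + ‖K‖ * ‖c‖) * δ ^ (-κ) := by ring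
      _ ≤ (D * (1 / Real.pi) ^ (-κ) + ‖K‖ * ‖c‖) * (δ ^ (-κ + 3 / 100) * S ^ 2) := by
          gcongr
      _ ≤ _ := by nlinarith

end Pool.Agent.HL4
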