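import Pool.Agent.Lib_helper98.HNF.FinQ
import Pool.Agent.Lib_helper92.HL4.UG
import Pool.Agent.Lib_helper92.HL4.SD

/-! # HL4, block SE: zeros of odd order in long and in short windows, assembly -/

namespace Pool.Agent.HL4

open Complex MeasureTheory Filter Topology NumberField
open Pool.Agent.HSG (Em Lat IsInt nI NCl Pr)
open Pool.Agent.HSG.N (Prim LForm QF v2 HK LamH GG lamI Co Fricke Dv Cop nf_hk hk_conj nf_pkgw
  nf_mainq hekN_of tau_exists tO nf_rs1 nf_rs2 hk_entire order_conj)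
open Pool.Agent.H4 (NI PI blw ml FunBd)
open Pool.Agent.HNA (RSin HekN PkgN al aN)
open Pool.Agent.HQ (PkgW)
open scoped nonZeroDivisors MatrixGroups

variable {K : Type} [Field K] [NumberField K]

theorem ups_conj_pr {m : ℕ} {Q : ℝ} {G : ℂ → ℂ} (h : HK m Q G)
    (hG : GAs m Q (fun z => (starRingEnd ℂ) (G (-(starRingEnd ℂ) z)))) :
    Ups (fun s => (starRingEnd ℂ) (LamH m Q G ((starRingEnd ℂ) s))) ((m : ℝ) / 2) Real.pi := by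
  obtain ⟨h', hc⟩ := hk_conj h
  have hfun : (fun s => (starRingEnd ℂ) (LamH m Q G ((starRingEnd ℂ) s))) =
      LamH m Q (fun z => (starRingEnd ℂ) (G (-(starRingEnd ℂ) z))) := by
    funext s
    exact (hc s).symm
  rw [hfun]
  exact ups_of_G_pr h' hG

/-- short windows -/
theorem nf_short [IsTotallyReal K] [Fintype (NCl K)] (hK : Module.finrank ℚ K = 2)
    {w0 w1 : Em K} {ε : Kˣ} {ℓ : ℝ}
    (hq : QF w0 w1 ε ℓ) {n : HSG.Id K} (hn : IsInt n)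
    {k : Em K → ℕ} (hk : ∀ w, 1 ≤ k w) {μ : Em K → ℝ} (hμ : ∑ w, μ w = 0)
    {om lam : HSG.Id K → ℂ} {F : (Em K → UpperHalfPlane) → Lat K → (Fin 2 → K) → ℂ}
    (h1 : om 1 = 1) (hm : ∀ a b, IsInt a → IsInt b → om (a * b) = om a * om b)
    (hnn : ∀ p : Pr K, ¬ Dv p n → ‖om (HS.frP p)‖ = 1)
    (h0 : ∀ p : Pr K, Dv p n → om (HS.frP p) = 0)
    (hl : lam 1 = 1) (hlm : ∀ a b, IsInt a → IsInt b → Cop a b → lam (a * b) = lam a * lam b)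
    (hp : ∀ (p : Pr K) (j : ℕ), lam (HS.frP p ^ (j + 2)) =
      lam (HS.frP p) * lam (HS.frP p ^ (j + 1)) - om (HS.frP p) * lam (HS.frP p ^ j))
    (hF : LForm n k μ om F) (hA : Co k μ lam F) (hW : Fricke n k F) {C : ℝ}
    (hb : ∀ m, ‖lam m‖ ≤ C * nI m ^ (1 / 2 : ℝ))
    (hG : GAs (k w0 + k w1) (√(nI n)) (GG w0 w1 ℓ k μ F))
    (hG' : GAs (k w0 + k w1) (√(nI n)) (fun z => (starRingEnd ℂ)
      (GG w0 w1 ℓ k μ F (-(starRingEnd ℂ) z)))) :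
    ∃ T₀ : ℝ, ∀ T H : ℝ, T₀ ≤ T → T ^ (99 / 100 : ℝ) ≤ H → H ≤ T →
      (∃ t : ℝ, T < t ∧ t < T + H ∧ Odd (analyticOrderNatAt
        (LamH (k w0 + k w1) (√(nI n)) (GG w0 w1 ℓ k μ F)) (1 / 2 + t * Complex.I))) ∧
      ∃ t : ℝ, T < t ∧ t < T + H ∧ Odd (analyticOrderNatAt
        (LamH (k w0 + k w1) (√(nI n)) (GG w0 w1 ℓ k μ F)) (1 / 2 - t * Complex.I)) := by
  have hH : HekN (lamI lam) (lamI om) := hekN_of h1 hm hnn h0 hl hlm hp hA.grow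
  obtain ⟨τ, hτ, hτ1, h01, h10⟩ := tau_exists hq
  have hτ' : ∀ x, tO τ (tO τ x) = x := fun x => RingOfIntegers.ext (hτ x)
  have hne : ∃ x, tO τ x ≠ x := by
    obtain ⟨x, hx⟩ := hτ1
    by_contra hcon
    push Not at hcon
    obtain ⟨a, b, hb, hab⟩ := IsFractionRing.div_surjective (A := 𝓞 K) x
    apply hx
    rw [← hab, map_div₀]
    have e1 : τ (algebraMap (𝓞 K) K a) = algebraMap (𝓞 K) K a := congrArg (algebraMap (𝓞 K) K) (hcon a)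
    have e2 : τ (algebraMap (𝓞 K) K b) = algebraMap (𝓞 K) K b := congrArg (algebraMap (𝓞 K) K) (hcon b)
    rw [e1, e2]
  have hml := Pool.Agent.HNA.ml_notN hK hτ' hne hH (nf_rs1 hq hn hk hμ h1 hm hnn h0 hF hA)
    (nf_rs2 hq hn hk hμ h1 hm hnn h0 hF hA hτ h01 h10)
  have ha1 : aN (lamI lam) 1 = 1 := Pool.Agent.HNA.aN_one hH
  have ham : ∀ i p m : ℕ, p.Prime → ¬ p ∣ m →
      aN (lamI lam) (p ^ i * m) = aN (lamI lam) (p ^ i) * aN (lamI lam) m := fun i p m h2 h3 =>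
    Pool.Agent.HNA.aN_mul hH (Nat.Coprime.pow_left i ((Nat.Prime.coprime_iff_not_dvd h2).mpr h3))
  obtain ⟨⟨Lf, hP⟩, ⟨Lf', hP'⟩⟩ := nf_pkgw hq hk hμ hF hA hW hb
  have hHK := nf_hk hq hk hμ hF hA hW
  have hU := ups_of_G_pr hHK hG
  have hU' := ups_conj_pr hHK hG'
  have eκ : (((k w0 + k w1 : ℕ) : ℝ) / 2) = ((k w0 : ℝ) + k w1) / 2 := by push_cast; ring
  rw [eκ] at hU hU'
  have hκ : 0 < ((k w0 : ℝ) + k w1) / 2 := by
    have h3 : (1 : ℝ) ≤ k w0 := by exact_mod_cast hk w0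
    have h4 : (1 : ℝ) ≤ k w1 := by exact_mod_cast hk w1
    linarith
  have hpos : ∃ T₀ : ℝ, ∀ T H : ℝ, T₀ ≤ T → T ^ (99 / 100 : ℝ) ≤ H → H ≤ T →
      ∃ t : ℝ, T < t ∧ t < T + H ∧ Odd (analyticOrderNatAt
        (LamH (k w0 + k w1) (√(nI n)) (GG w0 w1 ℓ k μ F)) (1 / 2 + t * Complex.I)) := by
    by_contra hcon
    push Not at hcon
    obtain ⟨C', hC⟩ := short_fun_bd_pr Real.pi_pos hκ hP hU (by rw [ha1]; exact one_ne_zero)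
      (fun T₀ => by
        obtain ⟨T, H, hT, hTH, hHT, h2⟩ := hcon T₀
        exact ⟨T, H, hT, hTH, hHT, fun t ht ht' => h2 t ht ht'⟩)
    exact hml fun i hi => Pool.Agent.H4.ml_summable hC ha1 (Finset.mem_Icc.mp hi).1 (ham i)
  have hneg : ∃ T₀ : ℝ, ∀ T H : ℝ, T₀ ≤ T → T ^ (99 / 100 : ℝ) ≤ H → H ≤ T →
      ∃ t : ℝ, T < t ∧ t < T + H ∧ Odd (analyticOrderNatAt
        (LamH (k w0 + k w1) (√(nI n)) (GG w0 w1 ℓ k μ F)) (1 / 2 - t * Complex.I)) := by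
    by_contra hcon
    push Not at hcon
    obtain ⟨C', hC⟩ := short_fun_bd_pr Real.pi_pos hκ hP' hU' (by rw [ha1]; simp)
      (fun T₀ => by
        obtain ⟨T, H, hT, hTH, hHT, h2⟩ := hcon T₀
        refine ⟨T, H, hT, hTH, hHT, fun t ht ht' => ?_⟩
        rw [order_conj (hk_entire hHK 0 (by simp [Real.pi_pos])).2.2]
        have e : (starRingEnd ℂ) (1 / 2 + (t : ℂ) * Complex.I) = 1 / 2 - (t : ℂ) * Complex.I := by
          have h2 : (starRingEnd ℂ) (2 : ℂ) = 2 := map_ofNat _ 2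
          simp [h2]
          ring
        rw [e]
        exact h2 t ht ht')
    refine hml fun i hi => ?_
    have := Pool.Agent.H4.ml_summable hC (by rw [ha1]; simp) (Finset.mem_Icc.mp hi).1
      (fun p m h2 h3 => by rw [ham i p m h2 h3, map_mul])
    simpa only [Pool.Agent.HSG.N.ml_conj] using this
  obtain ⟨T₁, hT₁⟩ := hpos
  obtain ⟨T₂, hT₂⟩ := hneg
  exact ⟨max T₁ T₂, fun T H hT hTH hHT => ⟨hT₁ T H (le_trans (le_max_left _ _) hT) hTH hHT,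
    hT₂ T H (le_trans (le_max_right _ _) hT) hTH hHT⟩⟩

/-- long and short windows -/
theorem nf_mains [IsTotallyReal K] [Fintype (NCl K)] (hK : Module.finrank ℚ K = 2)
    {w0 w1 : Em K} {ε : Kˣ} {ℓ : ℝ}
    (hq : QF w0 w1 ε ℓ) {n : HSG.Id K} (hn : IsInt n)
    {k : Em K → ℕ} (hk : ∀ w, 1 ≤ k w) {μ : Em K → ℝ} (hμ : ∑ w, μ w = 0)
    {om lam : HSG.Id K → ℂ} {F : (Em K → UpperHalfPlane) → Lat K → (Fin 2 → K) → ℂ}
    (h1 : om 1 = 1) (hm : ∀ a b, IsInt a → IsInt b → om (a * b) = om a * om b)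
    (hnn : ∀ p : Pr K, ¬ Dv p n → ‖om (HS.frP p)‖ = 1)
    (h0 : ∀ p : Pr K, Dv p n → om (HS.frP p) = 0)
    (hl : lam 1 = 1) (hlm : ∀ a b, IsInt a → IsInt b → Cop a b → lam (a * b) = lam a * lam b)
    (hp : ∀ (p : Pr K) (j : ℕ), lam (HS.frP p ^ (j + 2)) =
      lam (HS.frP p) * lam (HS.frP p ^ (j + 1)) - om (HS.frP p) * lam (HS.frP p ^ j))
    (hF : LForm n k μ om F) (hA : Co k μ lam F) (hW : Fricke n k F) {C : ℝ}
    (hb : ∀ m, ‖lam m‖ ≤ C * nI m ^ (1 / 2 : ℝ)) (P : Prop)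
    (hG : P → GAs (k w0 + k w1) (√(nI n)) (GG w0 w1 ℓ k μ F) ∧
      GAs (k w0 + k w1) (√(nI n)) (fun z => (starRingEnd ℂ)
      (GG w0 w1 ℓ k μ F (-(starRingEnd ℂ) z)))) {e : ℝ} (he : 0 < e) :
    ∃ T₀ : ℝ, ∀ T : ℝ, T₀ ≤ T → ∀ H : ℝ, (e * T ≤ H ∨ (P ∧ T ^ (99 / 100 : ℝ) ≤ H)) →
      (∃ t : ℝ, T < t ∧ t < T + H ∧ Odd (analyticOrderNatAt
        (LamH (k w0 + k w1) (√(nI n)) (GG w0 w1 ℓ k μ F)) (1 / 2 + t * Complex.I))) ∧
      ∃ t : ℝ, T < t ∧ t < T + H ∧ Odd (analyticOrderNatAt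
        (LamH (k w0 + k w1) (√(nI n)) (GG w0 w1 ℓ k μ F)) (1 / 2 - t * Complex.I)) := by
  obtain ⟨T₁, hT₁⟩ := nf_mainq hK hq hn hk hμ h1 hm hnn h0 hl hlm hp hF hA hW hb he
  obtain ⟨T₂, hT₂⟩ := nf_mainq hK hq hn hk hμ h1 hm hnn h0 hl hlm hp hF hA hW hb
    (e := 1) one_pos
  obtain ⟨T₃, hT₃⟩ : ∃ T₃ : ℝ, ∀ T H : ℝ, P → T₃ ≤ T → T ^ (99 / 100 : ℝ) ≤ H → H ≤ T →
      (∃ t : ℝ, T < t ∧ t < T + H ∧ Odd (analyticOrderNatAt
        (LamH (k w0 + k w1) (√(nI n)) (GG w0 w1 ℓ k μ F)) (1 / 2 + t * Complex.I))) ∧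
      ∃ t : ℝ, T < t ∧ t < T + H ∧ Odd (analyticOrderNatAt
        (LamH (k w0 + k w1) (√(nI n)) (GG w0 w1 ℓ k μ F)) (1 / 2 - t * Complex.I)) := by
    by_cases hP : P
    · obtain ⟨T₃, h3⟩ := nf_short hK hq hn hk hμ h1 hm hnn h0 hl hlm hp hF hA hW hb
        (hG hP).1 (hG hP).2
      exact ⟨T₃, fun T H _ => h3 T H⟩
    · exact ⟨0, fun T H h => absurd h hP⟩
  refine ⟨max T₁ (max T₂ T₃), fun T hT H hH => ?_⟩
  have a1 : T₁ ≤ T := (le_max_left _ _).trans hT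
  have a2 : T₂ ≤ T := ((le_max_left _ _).trans (le_max_right _ _)).trans hT
  have a3 : T₃ ≤ T := ((le_max_right _ _).trans (le_max_right _ _)).trans hT
  rcases hH with hH | ⟨hP, hH⟩
  · obtain ⟨⟨t, b1, b2, b3⟩, ⟨t', c1, c2, c3⟩⟩ := hT₁ T a1
    exact ⟨⟨t, b1, by linarith, b3⟩, ⟨t', c1, by linarith, c3⟩⟩
  · rcases le_total H T with hHT | hHT
    · exact hT₃ T H hP a3 hH hHT
    · obtain ⟨⟨t, b1, b2, b3⟩, ⟨t', c1, c2, c3⟩⟩ := hT₂ T a2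
      exact ⟨⟨t, b1, by linarith, b3⟩, ⟨t', c1, by linarith, c3⟩⟩

end Pool.Agent.HL4
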